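import Pool.Agent.Lib.MP_f05b2f_co.D.Ph

/-!
The criterion `Bad`, removal of full or empty slices and of full or empty rows, and its
consequences for `k ≤ l` and `k = l + 1`.
-/

namespace DKWF

open Finset

/-- two estimates at level `E` showing that the value for `k` first exceeds the intersection by at
least `ε` -/
def Bad (k l : ℕ) (α β : ℕ → ℕ) (E : ℕ) (ε : ℤ) : Prop :=
  E < l ∧
  ((∑ z ∈ range k, min (α z) (β z) : ℕ) : ℤ) + ε ≤ (Ph l (E + 1) (∑ z ∈ range k, α z) : ℕ) ∧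
  ((∑ z ∈ range k, min (α z) (β z) : ℕ) : ℤ) + ε + ((k * E : ℕ) : ℤ) ≤
    ((∑ z ∈ range k, β z : ℕ) : ℤ) + ((Ph l E (∑ z ∈ range k, α z) : ℕ) : ℤ)

theorem Bad.mono {k l : ℕ} {α β : ℕ → ℕ} {E : ℕ} {ε ε' : ℤ} (h : Bad k l α β E ε) (he : ε' ≤ ε) :
    Bad k l α β E ε' := ⟨h.1, by have := h.2.1; omega, by have := h.2.2; omega⟩

theorem Bad.of_le {k l : ℕ} (hk : 0 < k) (hl : 0 < l) {α β : ℕ → ℕ} {ε : ℤ} (hα : ∀ z, α z ≤ l)
    (hB : ∑ z ∈ range k, β z < k * l)
    (h : ((∑ z ∈ range k, min (α z) (β z) : ℕ) : ℤ) + ε ≤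
      (H [k, l] (∑ z ∈ range k, α z) (∑ z ∈ range k, β z) : ℕ)) :
    Bad k l α β ((∑ z ∈ range k, β z) / k) ε := by
  obtain ⟨B, hBe⟩ : ∃ B, ∑ z ∈ range k, β z = B := ⟨_, rfl⟩
  have hS : ∑ z ∈ range k, α z ≤ k * l := sum_le_mul (fun z _ => hα z)
  unfold Bad
  rw [hBe] at h hB ⊢
  have h1 : k * (B / k) ≤ B := Nat.mul_div_le B k
  have h2 : B < k * (B / k + 1) := by
    have h3 := Nat.div_add_mod B k
    have h4 := Nat.mod_lt B hk
    rw [Nat.mul_add, mul_one]
    omega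
  have h5 : B / k < l := by
    rw [Nat.div_lt_iff_lt_mul hk, mul_comm]
    exact hB
  have h6 := kf_le_row hk hl (show B / k + 1 ≤ l by omega) hS h2.le
  have h7 := kf_le_row' hk hl h5.le hS h1
  refine ⟨h5, ?_, ?_⟩ <;> omega

theorem Bad.kf {k l : ℕ} (hk : 0 < k) (hl : 0 < l) {α β : ℕ → ℕ} {E : ℕ} (hα : ∀ z, α z ≤ l)
    (hβ : ∀ z, β z ≤ l) (h : Bad k l α β E 1) :
    ∑ z ∈ range k, min (α z) (β z) <
      H [k, l] (∑ z ∈ range k, α z) (∑ z ∈ range k, β z) := by
  have hS : ∑ z ∈ range k, α z ≤ k * l := sum_le_mul (fun z _ => hα z)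
  have hB : ∑ z ∈ range k, β z ≤ k * l := sum_le_mul (fun z _ => hβ z)
  exact kf_ge hk hl h.1 hS hB (by have := h.2.1; omega) (by have := h.2.2; omega)

/-- equal sides: never bad -/
theorem not_bad_eq {k : ℕ} (hk : 0 < k) {α β : ℕ → ℕ} {E : ℕ} (ha : Antitone α) (hb : Antitone β)
    (hα : ∀ z, α z ≤ k) (hβ : ∀ z, β z ≤ k) (h : Bad k k α β E 1) : False := by
  have h1 := h.kf hk hk hα hβ
  obtain ⟨l1, l2, hl, hF⟩ := FSL_one hk hk α β ha hb (by simpa using hα) (by simpa using hβ)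
  have e1 : l1 ++ k :: l2 = [k, k] := by
    rcases l1 with _ | ⟨x, l1⟩
    · rw [List.nil_append] at hl ⊢
      rw [hl]
    · simp only [List.cons_append, List.cons.injEq, List.append_eq_nil_iff] at hl
      rw [hl.1, hl.2.1, hl.2.2]
      rfl
  rw [e1, sum_congr rfl (fun z _ => H_one (l := k) (α z) (hβ z))] at hF
  omega

/-- removal of the first slice -/
theorem Bad.tail {k l : ℕ} (hl : 0 < l) {α β : ℕ → ℕ} {E : ℕ} {ε : ℤ} (h0 : α 0 = l)
    (h1 : E + 1 ≤ β 0) (h2 : β 0 ≤ l) (h : Bad (k + 1) l α β E ε) :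
    Bad k l (fun z => α (z + 1)) (fun z => β (z + 1)) E ε := by
  obtain ⟨hE, hI, hII⟩ := h
  rw [sum_range_succ' (fun z => min (α z) (β z)), sum_range_succ' α] at hI hII
  rw [sum_range_succ' β] at hII
  have e1 := Ph_add (e := E + 1) hl (∑ z ∈ range k, α (z + 1)) (t := α 0) (by omega)
  have e2 := Ph_add (e := E) hl (∑ z ∈ range k, α (z + 1)) (t := α 0) (by omega)
  have e3 : (k + 1) * E = k * E + E := by ring
  rw [e3] at hII
  refine ⟨hE, ?_, ?_⟩
  · show ((∑ z ∈ range k, min (α (z + 1)) (β (z + 1)) : ℕ) : ℤ) + ε ≤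
      (Ph l (E + 1) (∑ z ∈ range k, α (z + 1)) : ℕ)
    omega
  · show ((∑ z ∈ range k, min (α (z + 1)) (β (z + 1)) : ℕ) : ℤ) + ε + ((k * E : ℕ) : ℤ) ≤
      ((∑ z ∈ range k, β (z + 1) : ℕ) : ℤ) + ((Ph l E (∑ z ∈ range k, α (z + 1)) : ℕ) : ℤ)
    omega

/-- removal of the last slice -/
theorem Bad.init {k l : ℕ} {α β : ℕ → ℕ} {E : ℕ} {ε : ℤ} (h0 : α k = 0)
    (h1 : β k ≤ E) (h : Bad (k + 1) l α β E ε) : Bad k l α β E ε := by
  obtain ⟨hE, hI, hII⟩ := h
  rw [sum_range_succ (fun z => min (α z) (β z)), sum_range_succ α, h0] at hI hII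
  rw [sum_range_succ β] at hII
  have e3 : (k + 1) * E = k * E + E := by ring
  rw [e3] at hII
  simp only [add_zero] at hI hII
  refine ⟨hE, ?_, ?_⟩ <;> omega

/-- removal of the last row -/
theorem Bad.bot {k l : ℕ} (hl : 0 < l) {α β : ℕ → ℕ} {E : ℕ} {ε : ℤ} (hα : ∀ z, α z ≤ l + 1)
    (hβ : ∀ z, β z ≤ l) (hE : E < l) (h : Bad k (l + 1) α β E ε) :
    Bad k l (fun z => min (α z) l) β E ε := by
  obtain ⟨-, hI, hII⟩ := h
  have eD : ∑ z ∈ range k, min (min (α z) l) (β z) = ∑ z ∈ range k, min (α z) (β z) :=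
    sum_congr rfl (fun z _ => by have := hβ z; omega)
  have eS : ∑ z ∈ range k, min (α z) l + ∑ z ∈ range k, (α z - min (α z) l) =
      ∑ z ∈ range k, α z := by
    rw [← sum_add_distrib]
    exact sum_congr rfl (fun z _ => by omega)
  have ht : (l + 1) * ∑ z ∈ range k, (α z - min (α z) l) ≤ ∑ z ∈ range k, α z := by
    rw [mul_sum]
    apply sum_le_sum
    intro z _
    have := hα z
    rcases Nat.lt_or_ge l (α z) with h1 | h1
    · have e : α z - min (α z) l = 1 := by omega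
      rw [e]
      omega
    · have e : α z - min (α z) l = 0 := by omega
      rw [e]
      omega
  have e1 := Ph_bot (e := E + 1) hl (by omega) ht
  have e2 := Ph_bot (e := E) hl (by omega) ht
  have e3 : ∑ z ∈ range k, α z - ∑ z ∈ range k, (α z - min (α z) l) =
      ∑ z ∈ range k, min (α z) l := by omega
  rw [e3] at e1 e2
  refine ⟨hE, ?_, ?_⟩
  · show ((∑ z ∈ range k, min (min (α z) l) (β z) : ℕ) : ℤ) + ε ≤
      (Ph l (E + 1) (∑ z ∈ range k, min (α z) l) : ℕ)
    rw [eD]; omega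
  · show ((∑ z ∈ range k, min (min (α z) l) (β z) : ℕ) : ℤ) + ε + ((k * E : ℕ) : ℤ) ≤
      ((∑ z ∈ range k, β z : ℕ) : ℤ) + ((Ph l E (∑ z ∈ range k, min (α z) l) : ℕ) : ℤ)
    rw [eD]; omega

/-- removal of the first row -/
theorem Bad.top {k l : ℕ} (hl : 0 < l) {α β : ℕ → ℕ} {E : ℕ} {ε : ℤ} (hα : ∀ z, α z ≤ l + 1)
    (hβ : ∀ z < k, 1 ≤ β z) (h : Bad k (l + 1) α β (E + 1) ε) :
    Bad k l (fun z => α z - 1) (fun z => β z - 1) E ε := by
  obtain ⟨hE, hI, hII⟩ := h
  have eD : ∑ z ∈ range k, min (α z) (β z) =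
      ∑ z ∈ range k, min (α z - 1) (β z - 1) + ∑ z ∈ range k, min (α z) 1 := by
    rw [← sum_add_distrib]
    exact sum_congr rfl (fun z hz => by have := hβ z (mem_range.1 hz); omega)
  have eS : ∑ z ∈ range k, (α z - 1) + ∑ z ∈ range k, min (α z) 1 = ∑ z ∈ range k, α z := by
    rw [← sum_add_distrib]
    exact sum_congr rfl (fun z _ => by omega)
  have eB : ∑ z ∈ range k, (β z - 1) + k = ∑ z ∈ range k, β z := by
    have h1 : ∑ z ∈ range k, (β z - 1) + ∑ z ∈ range k, 1 = ∑ z ∈ range k, β z := by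
      rw [← sum_add_distrib]
      exact sum_congr rfl (fun z hz => by have := hβ z (mem_range.1 hz); omega)
    simpa using h1
  have ht : ∑ z ∈ range k, α z ≤ (l + 1) * ∑ z ∈ range k, min (α z) 1 := by
    rw [mul_sum]
    apply sum_le_sum
    intro z _
    have := hα z
    rcases Nat.eq_zero_or_pos (α z) with h1 | h1
    · omega
    · have e : min (α z) 1 = 1 := by omega
      rw [e]
      omega
  have e1 := Ph_top (e := E + 1) hl (by omega) ht (by omega)
  have e2 := Ph_top (e := E) hl (by omega) ht (by omega)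
  have e3 : ∑ z ∈ range k, α z - ∑ z ∈ range k, min (α z) 1 = ∑ z ∈ range k, (α z - 1) := by omega
  have e4 : k * (E + 1) = k * E + k := by ring
  rw [e3] at e1 e2
  rw [e4] at hII
  refine ⟨by omega, ?_, ?_⟩
  · show ((∑ z ∈ range k, min (α z - 1) (β z - 1) : ℕ) : ℤ) + ε ≤
      (Ph l (E + 1) (∑ z ∈ range k, (α z - 1)) : ℕ)
    omega
  · show ((∑ z ∈ range k, min (α z - 1) (β z - 1) : ℕ) : ℤ) + ε + ((k * E : ℕ) : ℤ) ≤
      ((∑ z ∈ range k, (β z - 1) : ℕ) : ℤ) + ((Ph l E (∑ z ∈ range k, (α z - 1)) : ℕ) : ℤ)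
    omega

theorem Bad.bots {k l : ℕ} (hl : 0 < l) {β : ℕ → ℕ} {E : ℕ} {ε : ℤ}
    (hβ : ∀ z, β z ≤ l) (hE : E < l) (d : ℕ) : ∀ α : ℕ → ℕ, (∀ z, α z ≤ l + d) →
    Bad k (l + d) α β E ε → Bad k l (fun z => min (α z) l) β E ε := by
  induction d with
  | zero =>
    intro α hα h
    have e : (fun z => min (α z) l) = α := by
      funext z
      have := hα z
      omega
    rw [e]
    exact h
  | succ d ih =>
    intro α hα h
    have h1 := Bad.bot (l := l + d) (by omega) hα (fun z => (hβ z).trans (by omega)) (by omega) h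
    have h2 := ih _ (fun z => min_le_right _ _) h1
    have e : (fun z => min (min (α z) (l + d)) l) = fun z => min (α z) l := by
      funext z
      omega
    rw [e] at h2
    exact h2

theorem Bad.tops {k l : ℕ} {E : ℕ} {ε : ℤ} (hl : 0 < l) (d : ℕ) : ∀ α β : ℕ → ℕ,
    (∀ z, α z ≤ l + d) → (∀ z < k, d ≤ β z) →
    Bad k (l + d) α β (E + d) ε → Bad k l (fun z => α z - d) (fun z => β z - d) E ε := by
  induction d with
  | zero =>
    intro α β hα _ h
    exact h
  | succ d ih =>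
    intro α β hα hβ h
    have h1 := Bad.top (l := l + d) (E := E + d) (by omega) hα
      (fun z hz => by have := hβ z hz; omega) h
    have h2 := ih _ _ (fun z => by have := hα z; omega) (fun z hz => by have := hβ z hz; omega) h1
    have e1 : (fun z => α z - 1 - d) = fun z => α z - (d + 1) := by funext z; omega
    have e2 : (fun z => β z - 1 - d) = fun z => β z - (d + 1) := by funext z; omega
    rw [e1, e2] at h2
    exact h2

/-- restriction to a window of rows -/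
theorem Bad.window {k l L d : ℕ} (hL : 0 < L) {α β : ℕ → ℕ} {E : ℕ} {ε : ℤ}
    (hd : d + L ≤ l) (hα : ∀ z, α z ≤ l) (hβ : ∀ z, β z ≤ d + L) (hβ' : ∀ z < k, d ≤ β z)
    (hE1 : d ≤ E) (hE2 : E < d + L) (h : Bad k l α β E ε) :
    Bad k L (fun z => min (α z - d) L) (fun z => β z - d) (E - d) ε := by
  obtain ⟨r, rfl⟩ := Nat.exists_eq_add_of_le hd
  obtain ⟨E', rfl⟩ := Nat.exists_eq_add_of_le hE1
  have e1 : d + L + r = L + r + d := by omega
  have e2 : d + E' = E' + d := by omega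
  have e3 : E' + d - d = E' := by omega
  rw [e1] at h hα
  rw [e2] at h ⊢
  rw [e3]
  have h1 := Bad.tops (l := L + r) (by omega) d α β hα hβ' h
  exact Bad.bots hL (fun z => by have := hβ z; omega) (by omega) r _
    (fun z => by have := hα z; omega) h1

theorem level_exists {k : ℕ} (hk : 0 < k) {β : ℕ → ℕ} (hb : Antitone β)
    (h : β (k - 1) < β 0) : β (k - 1) ≤ (∑ z ∈ range k, β z) / k ∧
      (∑ z ∈ range k, β z) / k < β 0 := by
  constructor
  · rw [Nat.le_div_iff_mul_le hk, mul_comm]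
    have := sum_le_sum (fun z (hz : z ∈ range k) =>
      (hb (by have := mem_range.1 hz; omega) : β (k - 1) ≤ β z))
    rwa [sum_const, card_range, smul_eq_mul] at this
  · rw [Nat.div_lt_iff_lt_mul hk, mul_comm]
    have h1 : ∑ z ∈ range k, β z < ∑ z ∈ range k, β 0 := by
      apply sum_lt_sum (fun z _ => hb (Nat.zero_le z))
      exact ⟨k - 1, mem_range.2 (by omega), h⟩
    rwa [sum_const, card_range, smul_eq_mul] at h1

/-- if the section is not good for `k` first, there is a level between the extreme values -/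
theorem bad_level {k l : ℕ} (hk : 0 < k) (hl : 0 < l) {α β : ℕ → ℕ} (hb : Antitone β)
    (hα : ∀ z, α z ≤ l) (hβ : ∀ z, β z ≤ l) {ε : ℤ} (hd : β (k - 1) < β 0)
    (h : ((∑ z ∈ range k, min (α z) (β z) : ℕ) : ℤ) + ε ≤
      (H [k, l] (∑ z ∈ range k, α z) (∑ z ∈ range k, β z) : ℕ)) :
    ∃ E, β (k - 1) ≤ E ∧ E < β 0 ∧ Bad k l α β E ε := by
  have h1 := level_exists hk hb hd
  refine ⟨_, h1.1, h1.2, Bad.of_le hk hl hα ?_ h⟩
  have h2 := h1.2
  rw [Nat.div_lt_iff_lt_mul hk, mul_comm] at h2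
  exact h2.trans_le (Nat.mul_le_mul_left _ (hβ 0))

theorem drop_pos {k l : ℕ} (hk : 0 < k) (hl : 0 < l) {α β : ℕ → ℕ} (ha : Antitone α)
    (hb : Antitone β) (hα : ∀ z, α z ≤ l) (hβ : ∀ z, β z ≤ l)
    (h : ∑ z ∈ range k, min (α z) (β z) <
      H [k, l] (∑ z ∈ range k, α z) (∑ z ∈ range k, β z)) : β (k - 1) + 2 ≤ β 0 := by
  by_contra hcon
  have h1 := good_of_no_cross hk hl (a := α) (b := β) hb hα hβ ?_
  · omega
  · intro z1 z2 h2 h3 h4 h5
    have h6 := hb (Nat.zero_le z1)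
    have h7 := hb (show z2 ≤ k - 1 by omega)
    have h8 := ha h2.le
    omega

/-- `k ≤ l`: a section which is not good for `k` first has a drop of more than `k` -/
theorem kf_delta {k l : ℕ} (hk : 0 < k) (hkl : k ≤ l) {α β : ℕ → ℕ} (ha : Antitone α)
    (hb : Antitone β) (hα : ∀ z, α z ≤ l) (hβ : ∀ z, β z ≤ l)
    (h : ∑ z ∈ range k, min (α z) (β z) <
      H [k, l] (∑ z ∈ range k, α z) (∑ z ∈ range k, β z)) : β (k - 1) + k + 1 ≤ β 0 := by
  by_contra hcon
  have h0 := drop_pos hk (by omega) ha hb hα hβ h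
  obtain ⟨E, hE1, hE2, hbad⟩ := bad_level hk (by omega : 0 < l) (ε := 1) hb hα hβ (by omega)
    (by omega)
  obtain ⟨d, hd⟩ : ∃ d, min (β (k - 1)) (l - k) = d := ⟨_, rfl⟩
  have hl0 := hβ 0
  have h1 := hbad.window (L := k) (d := d) hk (by omega) hα
    (fun z => by have := hb (Nat.zero_le z); omega)
    (fun z hz => by have := hb (show z ≤ k - 1 by omega); omega) (by omega) (by omega)
  have h2 : Antitone (fun z => min (α z - d) k) := fun x y hxy => by
    show min (α y - d) k ≤ min (α x - d) k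
    have := ha hxy
    omega
  have h3 : Antitone (fun z => β z - d) := fun x y hxy => by
    show β y - d ≤ β x - d
    have := hb hxy
    omega
  exact not_bad_eq hk h2 h3 (fun z => min_le_right _ _)
    (fun z => by have := hb (Nat.zero_le z); omega) h1

/-- `k = l + 1`: in a section which is not good for `k` first all the slices are partial -/
theorem kf_part {l : ℕ} (hl : 0 < l) {α β : ℕ → ℕ} (ha : Antitone α)
    (hb : Antitone β) (hα : ∀ z, α z ≤ l) (hβ : ∀ z, β z ≤ l)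
    (h : ∑ z ∈ range (l + 1), min (α z) (β z) <
      H [l + 1, l] (∑ z ∈ range (l + 1), α z) (∑ z ∈ range (l + 1), β z)) :
    α 0 < l ∧ 0 < α l := by
  have h0 := drop_pos (k := l + 1) (by omega) hl ha hb hα hβ h
  rw [Nat.add_sub_cancel] at h0
  obtain ⟨E, hE1, hE2, hbad⟩ := bad_level (k := l + 1) (by omega) hl (ε := 1) hb hα hβ
    (by rw [Nat.add_sub_cancel]; omega) (by omega)
  rw [Nat.add_sub_cancel] at hE1
  constructor
  · by_contra hcon
    have h1 := hbad.tail hl (by have := hα 0; omega) (by omega) (hβ 0)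
    exact not_bad_eq hl (fun x y hxy => ha (by omega)) (fun x y hxy => hb (by omega))
      (fun z => hα _) (fun z => hβ _) h1
  · by_contra hcon
    have h1 := hbad.init (by omega) hE1
    exact not_bad_eq hl ha hb hα hβ h1

end DKWF
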