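import Pool.Agent.Lib.MP_f05b2f_co.D.Num

/-!
Two bounds for a section with `k ≤ l` slices: the surplus if the first slice of `A` is full and the
last one is empty, and the excess if one of the two holds.
-/

namespace DKWF

open Finset

theorem Core.data {L E X m p σ π : ℕ} {ε d1 d2 : ℤ} (h : Core L E X m p σ π ε d1 d2)
    (hn : 1 ≤ m + p) {d1' d2' : ℤ} (h1 : d1' ≤ d1) (h2 : d2' ≤ d2) :
    ∃ A C : ℤ, A = σ + π ∧ A + C = ((m : ℤ) + p) * L ∧ m ≤ C ∧
      ((L : ℤ) * (C * (ε + d1') + A * (ε + d2')) ≤ A * C + E * X * (A + C) + E * A ∨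
      (L : ℤ) * (C * (ε + d1') + A * (ε + d2')) ≤ A * C + E * X * (A + C) + X * C) := by
  obtain ⟨hL, hmp, hσ, hp, hπ, hi, hii⟩ := h
  have hLp : 0 < L := by omega
  obtain ⟨q, s, hs, hqs⟩ : ∃ q s, s < L ∧ σ + π = q * L + s :=
    ⟨(σ + π) / L, (σ + π) % L, Nat.mod_lt _ hLp, (Nat.div_add_mod' _ L).symm⟩
  rw [hqs, Ph_eq hLp (by omega) q hs.le] at hi hii
  have zL : (E : ℤ) + X + 1 = L := by exact_mod_cast hL
  have zmp : (m : ℤ) * π ≤ p * σ := by exact_mod_cast hmp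
  have zσ : (σ : ℤ) + m ≤ m * L := by exact_mod_cast hσ
  have zπ : (π : ℤ) ≤ p * L := by exact_mod_cast hπ
  have zqs : (σ : ℤ) + π = q * L + s := by exact_mod_cast hqs
  have hC : (m : ℤ) ≤ ((m : ℤ) + p) * L - (σ + π) := by
    have : ((m : ℤ) + p) * L = m * L + p * L := by ring
    linarith
  refine ⟨σ + π, ((m : ℤ) + p) * L - (σ + π), rfl, by ring, hC, ?_⟩
  have hA0 : (0 : ℤ) ≤ (σ : ℤ) + π := by positivity
  have hC0 : (0 : ℤ) ≤ ((m : ℤ) + p) * L - (σ + π) := le_trans (by positivity) hC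
  have hG := numG2 (n := (m : ℤ) + p) (m := m) (σ := σ) (A := (σ : ℤ) + π)
    (C := ((m : ℤ) + p) * L - (σ + π)) (L := L) (ε := ε) (d1 := d1) (d2 := d2) (E := E) (X := X)
    (q := q) (s := s) zL (by positivity) (by positivity) (by exact_mod_cast hn) hA0 hC0
    (by ring) (by nlinarith) zqs (by positivity) (by push_cast at hi; linarith)
    (by push_cast at hii; linarith)
  have hmono : (L : ℤ) * ((((m : ℤ) + p) * L - (σ + π)) * (ε + d1') + (σ + π) * (ε + d2')) ≤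
      (L : ℤ) * ((((m : ℤ) + p) * L - (σ + π)) * (ε + d1) + (σ + π) * (ε + d2)) := by
    apply mul_le_mul_of_nonneg_left _ (by positivity)
    have a1 := mul_le_mul_of_nonneg_left (show ε + d1' ≤ ε + d1 by linarith) hC0
    have a2 := mul_le_mul_of_nonneg_left (show ε + d2' ≤ ε + d2 by linarith) hA0
    linarith
  rcases hG with hG | hG
  · exact Or.inl (hmono.trans hG)
  · exact Or.inr (hmono.trans hG)

theorem Core.small {L E X m p σ π j : ℕ} {d1 d2 : ℤ}
    (h : Core L E X m p σ π (1 - (j : ℤ)) d1 d2) (h1 : (X : ℤ) ≤ d1) (h2 : (E : ℤ) ≤ d2)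
    (hn : 1 ≤ m + p) (hj : 1 ≤ j) (hjn : j * (m + p + 2) ≤ L) (hA : σ + π < L) : False := by
  obtain ⟨hL, hmp, hσ, hp, hπ, hi, hii⟩ := h
  have hLp : 0 < L := by omega
  have e0 : σ + π = 0 * L + (σ + π) := by omega
  have e1 := Ph_eq hLp (show E + 1 ≤ L by omega) 0 hA.le
  have e2 := Ph_eq hLp (show E ≤ L by omega) 0 hA.le
  rw [← e0] at e1 e2
  rw [e1] at hi
  rw [e2] at hii
  simp only [Nat.zero_mul, Nat.zero_add] at hi hii
  have zL : (E : ℤ) + X + 1 = L := by exact_mod_cast hL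
  have zmp : (m : ℤ) * π ≤ p * σ := by exact_mod_cast hmp
  have zσ : (σ : ℤ) + m ≤ m * L := by exact_mod_cast hσ
  have zπ : (π : ℤ) ≤ p * L := by exact_mod_cast hπ
  have zj : (j : ℤ) * (((m : ℤ) + p) + 2) ≤ L := by exact_mod_cast hjn
  push_cast at hi hii
  exact numCA (n := (m : ℤ) + p) (m := m) (p := p) (σ := σ) (π := π) (E := E) (X := X) (L := L)
    (j := j) rfl (by exact_mod_cast hn) (by positivity) (by positivity) (by positivity)
    (by positivity) zσ zπ zmp zL (by positivity) (by positivity) (by exact_mod_cast hj) zj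
    (by linarith) (by linarith)

theorem Core.false_C {L E X m p σ π j : ℕ} {d1 d2 : ℤ}
    (h : Core L E X m p σ π (1 - (j : ℤ)) d1 d2) (h1 : (X : ℤ) ≤ d1) (h2 : (E : ℤ) ≤ d2)
    (hj : 1 ≤ j) (hjn : j * (m + p + 2) ≤ L) : False := by
  rcases Nat.eq_zero_or_pos (m + p) with hn | hn
  · obtain ⟨hL, hmp, hσ, hp, hπ, hi, hii⟩ := h
    have hm0 : m = 0 := by omega
    have hp0 : p = 0 := by omega
    subst hm0
    subst hp0
    have hσ0 : σ = 0 := by omega
    have hπ0 : π = 0 := by omega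
    subst hσ0
    subst hπ0
    rw [Nat.add_zero, Ph_zero] at hi hii
    simp only [Nat.cast_zero, zero_add, zero_mul, add_zero] at hi hii
    omega
  · by_cases hA : σ + π < L
    · exact h.small h1 h2 hn hj hjn hA
    by_cases hC : (m + p) * L - (σ + π) < L
    · obtain ⟨hL, hmp, hσ, hp, hπ, hi, hii⟩ := h
      have h' : Core L E X m p σ π (1 - (j : ℤ)) d1 d2 := ⟨hL, hmp, hσ, hp, hπ, hi, hii⟩
      refine h'.mirror.small h2 h1 (by omega) hj (by rw [Nat.add_comm p m]; exact hjn) ?_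
      rw [Nat.add_mul] at hC
      omega
    have h' := h
    obtain ⟨hL, hmp, hσ, hp, hπ, hi, hii⟩ := h'
    obtain ⟨A, C, hAe, hAC, hmC, hG⟩ := h.data hn h1 h2
    have zA : (L : ℤ) ≤ A := by rw [hAe]; exact_mod_cast not_lt.1 hA
    have zC : (L : ℤ) ≤ C := by
      have h3 := not_lt.1 hC
      have h4 : σ + π + L ≤ (m + p) * L := by
        have : 0 < L := by omega
        omega
      have h5 : (σ : ℤ) + π + L ≤ ((m : ℤ) + p) * L := by exact_mod_cast h4
      linarith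
    exact numCB (n := (m : ℤ) + p) (L := L) (E := E) (X := X) (A := A) (C := C) (j := j)
      (by exact_mod_cast hL) (by positivity) (by positivity) (by exact_mod_cast hj)
      (by exact_mod_cast hjn) hAC zA zC hG

theorem Core.false_D {L E X m p σ π κ j : ℕ} {ε d1 d2 : ℤ}
    (h : Core L E X m p σ π ε d1 d2) (h1 : (X : ℤ) ≤ d1) (h2 : 0 ≤ d2) (hn : m + p ≤ κ)
    (hj : 1 ≤ j) (hL1 : j * (κ + 1) + 1 ≤ L) (hL2 : L ≤ (j + 1) * (κ + 1))
    (hε : (κ : ℤ) * j + 1 ≤ 2 * ε) : False := by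
  have hε1 : 1 ≤ ε := by
    have : (0 : ℤ) ≤ κ * j := by positivity
    omega
  have hm : 1 ≤ m := by
    by_contra hcon
    have hm0 : m = 0 := by omega
    subst hm0
    obtain ⟨hL, hmp, hσ, hp, hπ, hi, hii⟩ := h
    have hσ0 : σ = 0 := by omega
    subst hσ0
    have h3 := Ph_le_mul (e := E) (by omega : 0 < L) (by omega) (show 0 + π ≤ p * L by omega)
    have h4 : ((Ph L E (0 + π) : ℕ) : ℤ) ≤ p * E := by exact_mod_cast h3
    simp only [Nat.cast_zero, zero_add, zero_mul] at hii h4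
    linarith
  obtain ⟨A, C, hAe, hAC, hmC, hG⟩ := h.data (by omega) h1 h2
  obtain ⟨hL, hmp, hσ, hp, hπ, hi, hii⟩ := h
  have hG' : (L : ℤ) * (C * (ε + X) + A * ε) ≤ A * C + E * X * (A + C) + E * A ∨
      (L : ℤ) * (C * (ε + X) + A * ε) ≤ A * C + E * X * (A + C) + X * C := by
    rw [add_zero] at hG
    exact hG
  have zm : (1 : ℤ) ≤ m := by exact_mod_cast hm
  exact numD (n := (m : ℤ) + p) (L := L) (E := E) (X := X) (A := A) (C := C) (κ := κ) (j := j)
    (ε := ε) (by linarith [show (0 : ℤ) ≤ p by positivity]) (by exact_mod_cast hn)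
    (by exact_mod_cast hj) (by exact_mod_cast hL1) (by exact_mod_cast hL2) (by exact_mod_cast hL)
    (by positivity) (by positivity) (by rw [hAe]; positivity) (by linarith) hAC hε hG'

/-- the window between the extreme values of `β` -/
theorem Bad.reduce {k l : ℕ} (hk : 0 < k) {α β : ℕ → ℕ} (ha : Antitone α)
    (hb : Antitone β) (hα : ∀ z, α z ≤ l) (hβ : ∀ z, β z ≤ l) {E : ℕ} {ε : ℤ}
    (hE1 : β (k - 1) ≤ E) (hE2 : E < β 0) (h : Bad k l α β E ε) {L : ℕ}
    (hL : β (k - 1) + L = β 0) :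
    ∃ m p r1 r2 σ π g1 g2 : ℕ, m + p + r1 + r2 = k ∧
      Core L (E - β (k - 1)) (L - 1 - (E - β (k - 1))) m p σ π ε g2 g1 ∧
      (α 0 = l → 1 ≤ r2 ∧ L - 1 - (E - β (k - 1)) ≤ g2) ∧
      (α (k - 1) = 0 → 1 ≤ r1 ∧ E - β (k - 1) ≤ g1) := by
  have hL0 : 0 < L := by omega
  have h0 := hβ 0
  have hw := h.window (L := L) (d := β (k - 1)) hL0 (by omega) hα
    (fun z => by have := hb (Nat.zero_le z); omega)
    (fun z hz => hb (by omega)) hE1 (by omega)
  have h2 : Antitone (fun z => min (α z - β (k - 1)) L) := fun x y hxy => by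
    show min (α y - β (k - 1)) L ≤ min (α x - β (k - 1)) L
    have := ha hxy
    omega
  have h3 : Antitone (fun z => β z - β (k - 1)) := fun x y hxy => by
    show β y - β (k - 1) ≤ β x - β (k - 1)
    have := hb hxy
    omega
  obtain ⟨m, p, r1, r2, σ, π, g1, g2, hk', hcore, hr2, hr1⟩ := hw.core h2 h3
    (fun z => min_le_right _ _) (fun z => by have := hb (Nat.zero_le z); omega)
  refine ⟨m, p, r1, r2, σ, π, g1, g2, hk', hcore, ?_, ?_⟩
  · intro hα0
    have := hr2 0 hk (by omega) (by rw [hα0]; omega)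
    refine ⟨this.1, ?_⟩
    have h4 := this.2
    omega
  · intro hαk
    have := hr1 (k - 1) (by omega) (by omega) (by rw [hαk]; omega)
    refine ⟨this.1, ?_⟩
    have h4 := this.2
    omega

/-- the surplus of a section with first slice full and last slice empty -/
theorem kf_C {k l : ℕ} (hk : 0 < k) (hkl : k ≤ l) {α β : ℕ → ℕ} (ha : Antitone α)
    (hb : Antitone β) (hα : ∀ z, α z ≤ l) (hβ : ∀ z, β z ≤ l) (h0 : α 0 = l)
    (h1 : α (k - 1) = 0) {j : ℕ} (hj : j * k + β (k - 1) ≤ β 0) :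
    H [k, l] (∑ z ∈ range k, α z) (∑ z ∈ range k, β z) + j ≤
      ∑ z ∈ range k, min (α z) (β z) := by
  have main : ∀ i : ℕ, 1 ≤ i → i * k + β (k - 1) ≤ β 0 →
      H [k, l] (∑ z ∈ range k, α z) (∑ z ∈ range k, β z) + i ≤
        ∑ z ∈ range k, min (α z) (β z) := by
    intro i hi hik
    by_contra hcon
    have hik1 : k ≤ i * k := Nat.le_mul_of_pos_left k hi
    obtain ⟨E, hE1, hE2, hbad⟩ := bad_level hk (by omega : 0 < l) (ε := 1 - (i : ℤ)) hb hα hβ
      (by omega) (by omega)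
    obtain ⟨L, hL⟩ : ∃ L, β (k - 1) + L = β 0 := ⟨β 0 - β (k - 1), by omega⟩
    obtain ⟨m, p, r1, r2, σ, π, g1, g2, hk', hcore, hr2, hr1⟩ :=
      hbad.reduce hk ha hb hα hβ hE1 hE2 hL
    obtain ⟨hr2', hg2⟩ := hr2 h0
    obtain ⟨hr1', hg1⟩ := hr1 h1
    refine hcore.false_C (by exact_mod_cast hg2) (by exact_mod_cast hg1) hi ?_
    have : i * (m + p + 2) ≤ i * k := Nat.mul_le_mul_left _ (by omega)
    omega
  rcases Nat.eq_zero_or_pos j with rfl | hj0
  · by_contra hcon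
    have h2 := kf_delta hk hkl ha hb hα hβ (by omega)
    have h3 := main 1 le_rfl (by omega)
    omega
  · exact main j hj0 hj

/-- the excess of a section with first slice full or last slice empty -/
theorem kf_D {k l : ℕ} (hk : 0 < k) (hkl : k ≤ l) {α β : ℕ → ℕ} (ha : Antitone α)
    (hb : Antitone β) (hα : ∀ z, α z ≤ l) (hβ : ∀ z, β z ≤ l)
    (h0 : α 0 = l ∨ α (k - 1) = 0) {j : ℕ} (hj : (β 0 - β (k - 1) - 1) / k ≤ j) :
    2 * H [k, l] (∑ z ∈ range k, α z) (∑ z ∈ range k, β z) ≤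
      2 * ∑ z ∈ range k, min (α z) (β z) + (k - 1) * j := by
  by_contra hcon
  obtain ⟨i, hi⟩ : ∃ i, (β 0 - β (k - 1) - 1) / k = i := ⟨_, rfl⟩
  rw [hi] at hj
  have hij : (k - 1) * i ≤ (k - 1) * j := Nat.mul_le_mul_left _ hj
  obtain ⟨D, hD⟩ : ∃ D, ∑ z ∈ range k, min (α z) (β z) = D := ⟨_, rfl⟩
  obtain ⟨F, hF⟩ : ∃ F, H [k, l] (∑ z ∈ range k, α z) (∑ z ∈ range k, β z) = F := ⟨_, rfl⟩
  rw [hD, hF] at hcon
  have h1 := kf_delta hk hkl ha hb hα hβ (by omega)
  obtain ⟨E, hE1, hE2, hbad⟩ := bad_level hk (by omega : 0 < l) (ε := (F : ℤ) - D) hb hα hβ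
    (by omega) (by rw [hD, hF]; omega)
  obtain ⟨L, hL⟩ : ∃ L, β (k - 1) + L = β 0 := ⟨β 0 - β (k - 1), by omega⟩
  obtain ⟨m, p, r1, r2, σ, π, g1, g2, hk', hcore, hr2, hr1⟩ :=
    hbad.reduce hk ha hb hα hβ hE1 hE2 hL
  have e1 : β 0 - β (k - 1) - 1 = L - 1 := by omega
  rw [e1] at hi
  have h3 := Nat.div_add_mod (L - 1) k
  have h4 := Nat.mod_lt (L - 1) hk
  rw [hi] at h3
  have hi1 : 1 ≤ i := by
    by_contra hcon2
    have : i = 0 := by omega
    rw [this] at h3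
    omega
  have ek : k - 1 + 1 = k := by omega
  have hL1 : i * (k - 1 + 1) + 1 ≤ L := by rw [ek, Nat.mul_comm i k]; omega
  have hL2 : L ≤ (i + 1) * (k - 1 + 1) := by rw [ek, Nat.succ_mul, Nat.mul_comm i k]; omega
  have hε : ((k - 1 : ℕ) : ℤ) * i + 1 ≤ 2 * ((F : ℤ) - D) := by
    have : ((k - 1 : ℕ) : ℤ) * i = (((k - 1) * i : ℕ) : ℤ) := by push_cast; ring
    rw [this]
    omega
  rcases h0 with h0 | h0
  · obtain ⟨hr2', hg2⟩ := hr2 h0
    exact hcore.false_D (κ := k - 1) (j := i) (by exact_mod_cast hg2) (by positivity) (by omega)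
      hi1 hL1 hL2 hε
  · obtain ⟨hr1', hg1⟩ := hr1 h0
    exact hcore.mirror.false_D (κ := k - 1) (j := i) (by exact_mod_cast hg1) (by positivity)
      (by omega) hi1 hL1 hL2 hε

end DKWF
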