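import Pool.Agent.Lib.MP_f05b2f_co.D.Bad

/-!
Reduction of `Bad` to numerical data: the slices `Q` (`β` above the level, `α < β`) and `P`
(`β` at most the level, `β < α`) are kept, all the others are removed.
-/

namespace DKWF

open Finset

/-- the numerical data: `m` slices with sum `σ` before `p` slices with sum `π` -/
def Core (L E X m p σ π : ℕ) (ε d1 d2 : ℤ) : Prop :=
  E + X + 1 = L ∧ m * π ≤ p * σ ∧ σ + m ≤ m * L ∧ p ≤ π ∧ π ≤ p * L ∧
  (σ : ℤ) + ε + d1 ≤ (Ph L (E + 1) (σ + π) : ℕ) ∧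
  (σ : ℤ) + ε + d2 + ((m : ℤ) + p) * E ≤ (m : ℤ) * L + (Ph L E (σ + π) : ℕ)

/-- the complement -/
theorem Core.mirror {L E X m p σ π : ℕ} {ε d1 d2 : ℤ} (h : Core L E X m p σ π ε d1 d2) :
    Core L X E p m (p * L - π) (m * L - σ) ε d2 d1 := by
  obtain ⟨hL, h1, h2, h3, h4, h5, h6⟩ := h
  have hA : σ + π ≤ (m + p) * L := by rw [Nat.add_mul]; omega
  have c1 := Ph_compl (l := L) (t := E) (n := m + p) (A := σ + π) (by omega) (by omega) hA
  have c2 := Ph_compl (l := L) (t := E + 1) (n := m + p) (A := σ + π) (by omega) (by omega) hA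
  have e1 : L - E = X + 1 := by omega
  have e2 : L - (E + 1) = X := by omega
  have e3 : (p * L - π) + (m * L - σ) = (m + p) * L - (σ + π) := by
    rw [Nat.add_mul]; omega
  rw [e1] at c1
  rw [e2] at c2
  obtain ⟨u, hu⟩ := Nat.exists_eq_add_of_le (show π ≤ p * L from h4)
  obtain ⟨v, hv⟩ := Nat.exists_eq_add_of_le (show σ ≤ m * L by omega)
  have e4 : p * L - π = u := by omega
  have e5 : m * L - σ = v := by omega
  refine ⟨by omega, ?_, ?_, ?_, ?_, ?_, ?_⟩
  · rw [e4, e5]
    have e6 : p * σ + p * v = m * π + m * u := by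
      rw [← Nat.mul_add, ← Nat.mul_add, ← hu, ← hv]; ring
    omega
  · omega
  · omega
  · omega
  · rw [e3, e4]
    have c1' : ((Ph L (X + 1) ((m + p) * L - (σ + π)) : ℕ) : ℤ) + (σ + π) =
        ((m : ℤ) + p) * (X + 1) + (Ph L E (σ + π) : ℕ) := by exact_mod_cast c1
    have hL' : (E : ℤ) + X + 1 = L := by exact_mod_cast hL
    have hu' : (p : ℤ) * L = π + u := by exact_mod_cast hu
    have e7 : ((m : ℤ) + p) * E + ((m : ℤ) + p) * (X + 1) = m * L + (π + u) := by
      rw [← hu', ← hL']; ring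
    linarith
  · rw [e3, e4]
    have c2' : ((Ph L X ((m + p) * L - (σ + π)) : ℕ) : ℤ) + (σ + π) =
        ((m : ℤ) + p) * X + (Ph L (E + 1) (σ + π) : ℕ) := by exact_mod_cast c2
    have hL' : (E : ℤ) + X + 1 = L := by exact_mod_cast hL
    have hu' : (p : ℤ) * L = π + u := by exact_mod_cast hu
    have e7 : ((p : ℤ) + m) * X = ((m : ℤ) + p) * X := by ring
    rw [e7]
    linarith

theorem Bad.core {k L : ℕ} {α β : ℕ → ℕ} (ha : Antitone α) (hb : Antitone β)
    (hα : ∀ z, α z ≤ L) (hβ : ∀ z, β z ≤ L) {E : ℕ} {ε : ℤ} (h : Bad k L α β E ε) :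
    ∃ m p r1 r2 σ π g1 g2 : ℕ, m + p + r1 + r2 = k ∧
      Core L E (L - 1 - E) m p σ π ε g2 g1 ∧
      (∀ z < k, E < β z → β z ≤ α z → 1 ≤ r2 ∧ β z - (E + 1) ≤ g2) ∧
      (∀ z < k, β z ≤ E → α z ≤ β z → 1 ≤ r1 ∧ E - β z ≤ g1) := by
  obtain ⟨hE, hI, hII⟩ := h
  have hL : 0 < L := by omega
  refine ⟨∑ z ∈ range k, (if E < β z ∧ α z < β z then 1 else 0),
    ∑ z ∈ range k, (if β z ≤ E ∧ β z < α z then 1 else 0),
    ∑ z ∈ range k, (if β z ≤ E ∧ α z ≤ β z then 1 else 0),
    ∑ z ∈ range k, (if E < β z ∧ β z ≤ α z then 1 else 0),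
    ∑ z ∈ range k, (if E < β z ∧ α z < β z then α z else 0),
    ∑ z ∈ range k, (if β z ≤ E ∧ β z < α z then α z else 0),
    ∑ z ∈ range k, (if β z ≤ E ∧ α z ≤ β z then E - β z else 0),
    ∑ z ∈ range k, (if E < β z ∧ β z ≤ α z then β z - (E + 1) else 0), ?_, ⟨by omega, ?_, ?_, ?_,
      ?_, ?_, ?_⟩, ?_, ?_⟩
  · rw [← sum_add_distrib, ← sum_add_distrib, ← sum_add_distrib]
    have : ∑ z ∈ range k, 1 = k := by simp
    conv_rhs => rw [← this]
    apply sum_congr rfl
    intro z _
    split_ifs <;> omega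
  · rw [sum_mul_sum, mul_comm, sum_mul_sum]
    apply sum_le_sum
    intro z _
    apply sum_le_sum
    intro z' _
    by_cases hQ : E < β z ∧ α z < β z
    · by_cases hP : β z' ≤ E ∧ β z' < α z'
      · rw [if_pos hQ, if_pos hP, if_pos hQ, if_pos hP, one_mul, mul_one]
        apply ha
        by_contra hcon
        have := hb (show z' ≤ z by omega)
        omega
      · rw [if_neg hP, if_neg hP, Nat.mul_zero, Nat.mul_zero]
    · rw [if_neg hQ, if_neg hQ, Nat.zero_mul, Nat.zero_mul]
  · rw [← sum_add_distrib, sum_mul]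
    apply sum_le_sum
    intro z _
    have := hβ z
    split_ifs <;> omega
  · apply sum_le_sum
    intro z _
    split_ifs <;> omega
  · rw [sum_mul]
    apply sum_le_sum
    intro z _
    have := hα z
    split_ifs <;> omega
  · have eS : ∑ z ∈ range k, (if E < β z ∧ α z < β z then α z else 0) +
        ∑ z ∈ range k, (if β z ≤ E ∧ β z < α z then α z else 0) +
        ∑ z ∈ range k, (if (β z ≤ E ∧ α z ≤ β z) ∨ (E < β z ∧ β z ≤ α z) then α z else 0) =
        ∑ z ∈ range k, α z := by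
      rw [← sum_add_distrib, ← sum_add_distrib]
      apply sum_congr rfl
      intro z _
      split_ifs <;> omega
    have h1 := Ph_sum (e := E + 1) hL (∑ z ∈ range k, (if E < β z ∧ α z < β z then α z else 0) +
        ∑ z ∈ range k, (if β z ≤ E ∧ β z < α z then α z else 0)) k
        (t := fun z => if (β z ≤ E ∧ α z ≤ β z) ∨ (E < β z ∧ β z ≤ α z) then α z else 0)
        (fun z => by have := hα z; split_ifs <;> omega)
    rw [eS] at h1
    have h2 : ∑ z ∈ range k, (if E < β z ∧ α z < β z then α z else 0) +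
        ∑ z ∈ range k, (if E < β z ∧ β z ≤ α z then β z - (E + 1) else 0) +
        ∑ z ∈ range k, min (if (β z ≤ E ∧ α z ≤ β z) ∨ (E < β z ∧ β z ≤ α z) then α z else 0)
          (E + 1) ≤ ∑ z ∈ range k, min (α z) (β z) := by
      rw [← sum_add_distrib, ← sum_add_distrib]
      apply sum_le_sum
      intro z _
      split_ifs <;> omega
    omega
  · have eS : ∑ z ∈ range k, (if E < β z ∧ α z < β z then α z else 0) +
        ∑ z ∈ range k, (if β z ≤ E ∧ β z < α z then α z else 0) +
        ∑ z ∈ range k, (if (β z ≤ E ∧ α z ≤ β z) ∨ (E < β z ∧ β z ≤ α z) then α z else 0) =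
        ∑ z ∈ range k, α z := by
      rw [← sum_add_distrib, ← sum_add_distrib]
      apply sum_congr rfl
      intro z _
      split_ifs <;> omega
    have h1 := Ph_sum (e := E) hL (∑ z ∈ range k, (if E < β z ∧ α z < β z then α z else 0) +
        ∑ z ∈ range k, (if β z ≤ E ∧ β z < α z then α z else 0)) k
        (t := fun z => if (β z ≤ E ∧ α z ≤ β z) ∨ (E < β z ∧ β z ≤ α z) then α z else 0)
        (fun z => by have := hα z; split_ifs <;> omega)
    rw [eS] at h1
    have h2 : ∑ z ∈ range k, (if E < β z ∧ α z < β z then α z else 0) +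
        ∑ z ∈ range k, (if β z ≤ E ∧ α z ≤ β z then E - β z else 0) +
        (∑ z ∈ range k, (if E < β z ∧ α z < β z then 1 else 0) +
          ∑ z ∈ range k, (if β z ≤ E ∧ β z < α z then 1 else 0)) * E +
        ∑ z ∈ range k, β z +
        ∑ z ∈ range k, min (if (β z ≤ E ∧ α z ≤ β z) ∨ (E < β z ∧ β z ≤ α z) then α z else 0)
          E ≤ ∑ z ∈ range k, min (α z) (β z) + k * E +
          (∑ z ∈ range k, (if E < β z ∧ α z < β z then 1 else 0)) * L := by
      have e1 : k * E = ∑ z ∈ range k, E := by simp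
      rw [e1, Nat.add_mul, sum_mul, sum_mul, sum_mul, ← sum_add_distrib, ← sum_add_distrib,
        ← sum_add_distrib, ← sum_add_distrib, ← sum_add_distrib, ← sum_add_distrib,
        ← sum_add_distrib]
      apply sum_le_sum
      intro z _
      have := hβ z
      split_ifs <;> omega
    have h3 : ((∑ z ∈ range k, (if E < β z ∧ α z < β z then α z else 0) : ℕ) : ℤ) +
        ((∑ z ∈ range k, (if β z ≤ E ∧ α z ≤ β z then E - β z else 0) : ℕ) : ℤ) +
        (((∑ z ∈ range k, (if E < β z ∧ α z < β z then 1 else 0) : ℕ) : ℤ) +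
          ((∑ z ∈ range k, (if β z ≤ E ∧ β z < α z then 1 else 0) : ℕ) : ℤ)) * (E : ℤ) +
        ((∑ z ∈ range k, β z : ℕ) : ℤ) +
        ((∑ z ∈ range k, min (if (β z ≤ E ∧ α z ≤ β z) ∨ (E < β z ∧ β z ≤ α z) then α z else 0)
          E : ℕ) : ℤ) ≤ ((∑ z ∈ range k, min (α z) (β z) : ℕ) : ℤ) + ((k * E : ℕ) : ℤ) +
          ((∑ z ∈ range k, (if E < β z ∧ α z < β z then 1 else 0) : ℕ) : ℤ) * (L : ℤ) := by
      exact_mod_cast h2
    have h4 : ((Ph L E (∑ z ∈ range k, α z) : ℕ) : ℤ) ≤
        ((Ph L E (∑ z ∈ range k, (if E < β z ∧ α z < β z then α z else 0) +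
        ∑ z ∈ range k, (if β z ≤ E ∧ β z < α z then α z else 0)) : ℕ) : ℤ) +
        ((∑ z ∈ range k, min (if (β z ≤ E ∧ α z ≤ β z) ∨ (E < β z ∧ β z ≤ α z) then α z else 0)
          E : ℕ) : ℤ) := by exact_mod_cast h1
    linarith
  · intro z hz h1 h2
    have hz' := mem_range.2 hz
    constructor
    · have := single_le_sum (f := fun z => if E < β z ∧ β z ≤ α z then 1 else 0)
        (fun _ _ => Nat.zero_le _) hz'
      simp only [if_pos (And.intro h1 h2)] at this
      exact this
    · have := single_le_sum (f := fun z => if E < β z ∧ β z ≤ α z then β z - (E + 1) else 0)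
        (fun _ _ => Nat.zero_le _) hz'
      simp only [if_pos (And.intro h1 h2)] at this
      exact this
  · intro z hz h1 h2
    have hz' := mem_range.2 hz
    constructor
    · have := single_le_sum (f := fun z => if β z ≤ E ∧ α z ≤ β z then 1 else 0)
        (fun _ _ => Nat.zero_le _) hz'
      simp only [if_pos (And.intro h1 h2)] at this
      exact this
    · have := single_le_sum (f := fun z => if β z ≤ E ∧ α z ≤ β z then E - β z else 0)
        (fun _ _ => Nat.zero_le _) hz'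
      simp only [if_pos (And.intro h1 h2)] at this
      exact this

end DKWF
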