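import Pool.Agent.Lib.MP_f05b2f_co.D.Core

/-!
The inequalities for the numerical data.
-/

namespace DKWF

theorem numG {n m σ A C L ε d1 d2 E F1 F0 : ℤ} (hn : 0 < n) (hA : 0 ≤ A) (hC : 0 ≤ C)
    (hAC : A + C = n * L) (hm : m * A ≤ n * σ) (hi : σ + ε + d1 ≤ F1)
    (hii : σ + ε + d2 + n * E ≤ m * L + F0) :
    A * (ε + d2 + n * E - F0) ≤ C * (F1 - ε - d1) := by
  have h1 : A * (ε + d2 + n * E - F0) ≤ A * (m * L - σ) :=
    mul_le_mul_of_nonneg_left (by linarith) hA
  have h2 : C * σ ≤ C * (F1 - ε - d1) := mul_le_mul_of_nonneg_left (by linarith) hC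
  have h3 : n * (A * (m * L - σ)) ≤ n * (C * σ) := by
    have h4 : (m * A) * (A + C) ≤ (n * σ) * (A + C) :=
      mul_le_mul_of_nonneg_right hm (by linarith)
    have h5 : n * (A * (m * L - σ)) = (m * A) * (A + C) - n * σ * A := by rw [hAC]; ring
    have h6 : n * (C * σ) = n * σ * C := by ring
    rw [h5, h6]
    linarith
  exact h1.trans ((le_of_mul_le_mul_left h3 hn).trans h2)

theorem numG2 {n m σ A C L ε d1 d2 E X q s : ℤ} (hL : E + X + 1 = L) (hE : 0 ≤ E) (hX : 0 ≤ X)
    (hn : 0 < n) (hA : 0 ≤ A) (hC : 0 ≤ C) (hAC : A + C = n * L) (hm : m * A ≤ n * σ)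
    (hq : A = q * L + s) (hs0 : 0 ≤ s)
    (hi : σ + ε + d1 ≤ q * (E + 1) + min (E + 1) s)
    (hii : σ + ε + d2 + n * E ≤ m * L + (q * E + min E s)) :
    L * (C * (ε + d1) + A * (ε + d2)) ≤ A * C + E * X * (A + C) + E * A ∨
      L * (C * (ε + d1) + A * (ε + d2)) ≤ A * C + E * X * (A + C) + X * C := by
  have hq' : q * L = A - s := by linarith
  have hAC' : n * L = A + C := by linarith
  have hL' : L = E + X + 1 := by linarith
  have hL0 : 0 ≤ L := by linarith
  have hG := mul_le_mul_of_nonneg_left (numG hn hA hC hAC hm hi hii) hL0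
  rcases le_or_gt s E with h1 | h1
  · left
    rw [min_eq_right (by linarith : s ≤ E + 1), min_eq_right h1] at hG
    have e : L * (C * (q * (E + 1) + s)) - L * (A * (n * E - (q * E + s))) =
        A * C + s * (C * X + A * (X + 1)) := by
      linear_combination (C * (E + 1) + A * E) * hq' - A * E * hAC' + (C * s + A * s) * hL'
    have h2 : s * (C * X + A * (X + 1)) ≤ E * (C * X + A * (X + 1)) :=
      mul_le_mul_of_nonneg_right h1 (by positivity)
    have e1 : L * (A * (ε + d2 + n * E - (q * E + s))) =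
      L * (A * (n * E - (q * E + s))) + L * (A * (ε + d2)) := by ring
    have e2 : L * (C * (q * (E + 1) + s - ε - d1)) =
      L * (C * (q * (E + 1) + s)) - L * (C * (ε + d1)) := by ring
    rw [e1, e2] at hG
    have e3 : E * (C * X + A * (X + 1)) = E * X * (A + C) + E * A := by ring
    have e4 : L * (C * (ε + d1) + A * (ε + d2)) = L * (C * (ε + d1)) + L * (A * (ε + d2)) := by
      ring
    linarith
  · right
    rw [min_eq_left (by linarith : E + 1 ≤ s), min_eq_left h1.le] at hG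
    have e : L * (C * (q * (E + 1) + (E + 1))) - L * (A * (n * E - (q * E + E))) =
        A * C + (L - s) * (C * (E + 1) + A * E) := by
      linear_combination (C * (E + 1) + A * E) * hq' - A * E * hAC'
    have h2 : (L - s) * (C * (E + 1) + A * E) ≤ X * (C * (E + 1) + A * E) :=
      mul_le_mul_of_nonneg_right (by linarith) (by positivity)
    have e1 : L * (A * (ε + d2 + n * E - (q * E + E))) =
      L * (A * (n * E - (q * E + E))) + L * (A * (ε + d2)) := by ring
    have e2 : L * (C * (q * (E + 1) + (E + 1) - ε - d1)) =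
      L * (C * (q * (E + 1) + (E + 1))) - L * (C * (ε + d1)) := by ring
    rw [e1, e2] at hG
    have e3 : X * (C * (E + 1) + A * E) = E * X * (A + C) + X * C := by ring
    have e4 : L * (C * (ε + d1) + A * (ε + d2)) = L * (C * (ε + d1)) + L * (A * (ε + d2)) := by
      ring
    linarith

/-- both sums large -/
theorem numCB {n L E X A C j : ℤ} (hL : E + X + 1 = L) (hE : 0 ≤ E) (hX : 0 ≤ X) (hj : 1 ≤ j)
    (hjn : j * (n + 2) ≤ L) (hAC : A + C = n * L) (hA : L ≤ A) (hC : L ≤ C)
    (hG : L * (C * (1 - j + X) + A * (1 - j + E)) ≤ A * C + E * X * (A + C) + E * A ∨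
      L * (C * (1 - j + X) + A * (1 - j + E)) ≤ A * C + E * X * (A + C) + X * C) : False := by
  have hL1 : 1 ≤ L := by linarith
  have hA0 : 0 < A := by linarith
  have hC0 : 0 < C := by linarith
  have e0 : L * (C * (1 - j + X) + A * (1 - j + E)) =
      (1 - j) * L * (A + C) + E * X * (A + C) + (C * X ^ 2 + C * X + A * E ^ 2 + A * E) := by
    rw [← hL]; ring
  have hK : C * X ^ 2 + A * E ^ 2 ≤ A * C + (j - 1) * L * (A + C) := by
    have h1 : 0 ≤ C * X := by positivity
    have h2 : 0 ≤ A * E := by positivity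
    rcases hG with hG | hG
    · rw [e0] at hG; nlinarith
    · rw [e0] at hG; nlinarith
  have hn2 : 2 ≤ n := by
    by_contra hcon
    have : n * L ≤ 1 * L := mul_le_mul_of_nonneg_right (by linarith) (by linarith)
    linarith
  have h3 := mul_le_mul_of_nonneg_left hK (by linarith : 0 ≤ A + C)
  have h4 : A * C * (L - 1) ^ 2 ≤ (A + C) * (C * X ^ 2 + A * E ^ 2) := by
    have e1 : L - 1 = X + E := by linarith
    rw [e1]
    nlinarith [sq_nonneg (C * X - A * E)]
  have h5 : A * C * ((L - 1) ^ 2 - n * L) ≤ (j - 1) * L * (n * L) ^ 2 := by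
    rw [← hAC]
    have e1 : (A + C) * (A * C + (j - 1) * L * (A + C)) =
      A * C * (A + C) + (j - 1) * L * (A + C) ^ 2 := by ring
    rw [e1] at h3
    linarith
  have h6 : (n - 1) * L ^ 2 ≤ A * C := by
    have h7 : 0 ≤ (A - L) * (C - L) := mul_nonneg (by linarith) (by linarith)
    have e1 : (A - L) * (C - L) = A * C - L * (A + C) + L ^ 2 := by ring
    rw [e1, hAC] at h7
    linarith
  have h8 : (j - 1) * (n + 2) ≤ L - n - 2 := by linarith
  have e2 : (L - 1) ^ 2 - n * L = L * (L - n - 2) + 1 := by ring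
  have h9 : L * ((j - 1) * (n + 2)) ≤ L * (L - n - 2) := mul_le_mul_of_nonneg_left h8 (by linarith)
  have h10 : 0 ≤ L * ((j - 1) * (n + 2)) + 1 := by
    have : 0 ≤ (j - 1) * (n + 2) := mul_nonneg (by linarith) (by linarith)
    positivity
  have h11 : (n - 1) * L ^ 2 * (L * ((j - 1) * (n + 2)) + 1) ≤
      A * C * ((L - 1) ^ 2 - n * L) := by
    rw [e2]
    exact mul_le_mul h6 (by linarith) h10 (by positivity)
  have h12 : L ^ 2 * ((n - 1) * (L * ((j - 1) * (n + 2)) + 1)) ≤
      L ^ 2 * ((j - 1) * L * n ^ 2) := by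
    have e3 : L ^ 2 * ((n - 1) * (L * ((j - 1) * (n + 2)) + 1)) =
      (n - 1) * L ^ 2 * (L * ((j - 1) * (n + 2)) + 1) := by ring
    have e4 : L ^ 2 * ((j - 1) * L * n ^ 2) = (j - 1) * L * (n * L) ^ 2 := by ring
    rw [e3, e4]
    exact h11.trans h5
  have h13 := le_of_mul_le_mul_left h12 (by positivity)
  have h14 : 0 ≤ (j - 1) * L * (n - 2) :=
    mul_nonneg (mul_nonneg (by linarith) (by linarith)) (by linarith)
  have e5 : (n - 1) * (L * ((j - 1) * (n + 2)) + 1) - (j - 1) * L * n ^ 2 =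
    (j - 1) * L * (n - 2) + (n - 1) := by ring
  linarith

/-- the sum is less than one slice -/
theorem numCA {n m p σ π E X L j : ℤ} (hnm : n = m + p) (hn : 1 ≤ n) (hm : 0 ≤ m) (hp : 0 ≤ p)
    (hσ : 0 ≤ σ) (hπ : 0 ≤ π) (hσm : σ + m ≤ m * L) (hπL : π ≤ p * L)
    (hmp : m * π ≤ p * σ) (hL : E + X + 1 = L) (hE : 0 ≤ E) (hX : 0 ≤ X) (hj : 1 ≤ j)
    (hjn : j * (n + 2) ≤ L)
    (hi : σ + (1 - j) + X ≤ min (E + 1) (σ + π))
    (hii : σ + (1 - j) + E + n * E ≤ m * L + min E (σ + π)) : False := by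
  rcases eq_or_lt_of_le hm with hm0 | hm0
  · have h1 : m = 0 := hm0.symm
    subst h1
    have h2 : σ = 0 := by linarith
    subst h2
    have h3 := hi.trans (min_le_left _ _)
    have h4 := min_le_left E (0 + π)
    have h5 : E ≤ n * E := by nlinarith
    have h6 : j * 3 ≤ j * (n + 2) := mul_le_mul_of_nonneg_left (by linarith) (by linarith)
    linarith
  rcases eq_or_lt_of_le hp with hp0 | hp0
  · have h1 : p = 0 := hp0.symm
    subst h1
    have h2 : π = 0 := by linarith
    subst h2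
    have h3 := hi.trans (min_le_right _ _)
    have h4 : X ≤ j - 1 := by linarith
    have hnm' : m = n := by linarith
    rw [hnm'] at hii
    rcases le_total (σ + 0) E with h5 | h5
    · rw [min_eq_right h5] at hii
      have h6 : (n + 1) * (L - j) ≤ (n + 1) * E :=
        mul_le_mul_of_nonneg_left (by linarith) (by linarith)
      nlinarith
    · rw [min_eq_left h5] at hii
      have h6 : n * (L - E) ≤ n * j := mul_le_mul_of_nonneg_left (by linarith) (by linarith)
      nlinarith
  have hA1 : m * (σ + π) ≤ n * σ := by rw [hnm]; linarith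
  have hA2 : n * π ≤ p * (σ + π) := by rw [hnm]; linarith
  have hm' : m = n - p := by linarith
  rcases le_or_gt (σ + π) E with h1 | h1
  · rw [min_eq_right (by linarith : σ + π ≤ E + 1)] at hi
    rw [min_eq_right h1] at hii
    have h2 : p * (σ + π) ≤ p * E := mul_le_mul_of_nonneg_left h1 hp
    have ha : n * L ≤ (n + p) * E + n * j := by
      have h3 : n * (L - E) ≤ n * (π + j) := mul_le_mul_of_nonneg_left (by linarith) (by linarith)
      nlinarith
    have hb : E * (n ^ 2 + n - p) ≤ n * m * L + n * (j - 1) := by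
      have h3 : n * (1 - j + (n + 1) * E) ≤ n * (m * L + π) :=
        mul_le_mul_of_nonneg_left (by linarith) (by linarith)
      nlinarith
    have hpn : p ≤ n := by linarith
    have h4 : 0 ≤ n ^ 2 + n - p := by nlinarith
    have h5 : n * L * (n ^ 2 + n - p) ≤ ((n + p) * E + n * j) * (n ^ 2 + n - p) :=
      mul_le_mul_of_nonneg_right ha h4
    have h6 : (n + p) * (E * (n ^ 2 + n - p)) ≤ (n + p) * (n * m * L + n * (j - 1)) :=
      mul_le_mul_of_nonneg_left hb (by linarith)
    have h7 : n * (L * (n + p ^ 2 - p)) ≤ n * (j * (n * (n + 2)) - (n + p)) := by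
      rw [hm'] at h6
      nlinarith
    have h8 := le_of_mul_le_mul_left h7 (by linarith)
    have h9 : 0 ≤ L * (p ^ 2 - p) := mul_nonneg (by linarith) (by nlinarith)
    have h10 : n * (j * (n + 2)) ≤ n * L := mul_le_mul_of_nonneg_left hjn (by linarith)
    nlinarith
  · rw [min_eq_left (by linarith : E + 1 ≤ σ + π)] at hi
    rw [min_eq_left h1.le] at hii
    have h2 : m * (E + 1) ≤ m * (σ + π) := mul_le_mul_of_nonneg_left (by linarith) hm
    have ha : n * (L - 1 - j) + m ≤ E * (2 * n - m) := by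
      have h3 : n * σ ≤ n * (2 * E + j + 1 - L) :=
        mul_le_mul_of_nonneg_left (by linarith) (by linarith)
      nlinarith
    have hb : E * (n ^ 2 + m) ≤ n * m * L + n * (j - 1) - m := by
      have h3 : n * (σ + (1 - j) + n * E) ≤ n * (m * L) :=
        mul_le_mul_of_nonneg_left (by linarith) (by linarith)
      nlinarith
    have h5 : (n * (L - 1 - j) + m) * (n ^ 2 + m) ≤ E * (2 * n - m) * (n ^ 2 + m) :=
      mul_le_mul_of_nonneg_right ha (by positivity)
    have h6 : (2 * n - m) * (E * (n ^ 2 + m)) ≤ (2 * n - m) * (n * m * L + n * (j - 1) - m) :=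
      mul_le_mul_of_nonneg_left hb (by linarith)
    have h7 : n * ((p ^ 2 + m) * L) ≤ n * (n * (j * (n + 2) + p - 2)) := by
      rw [hm'] at h5 h6 ⊢
      nlinarith
    have h8 := le_of_mul_le_mul_left h7 (by linarith)
    have h9 : (p ^ 2 + m) * (j * (n + 2)) ≤ (p ^ 2 + m) * L :=
      mul_le_mul_of_nonneg_left hjn (by positivity)
    have h10 : p * (p - 1) * (j * (n + 2)) ≤ n * (p - 2) := by
      rw [hm'] at h8 h9
      nlinarith
    have h11 : p * (p - 1) * (1 * (n + 2)) ≤ p * (p - 1) * (j * (n + 2)) :=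
      mul_le_mul_of_nonneg_left (mul_le_mul_of_nonneg_right hj (by linarith))
        (mul_nonneg hp (by linarith))
    have h12 : (p - 1) * (n + 2) ≤ p * (p - 1) * (1 * (n + 2)) := by
      have : (p - 1) * (n + 2) * 1 ≤ (p - 1) * (n + 2) * p :=
        mul_le_mul_of_nonneg_left (by linarith) (mul_nonneg (by linarith) (by linarith))
      nlinarith
    nlinarith

/-- the bound for the excess -/
theorem numD {n L E X A C κ j ε : ℤ} (hn : 1 ≤ n) (hnκ : n ≤ κ) (hj : 1 ≤ j)
    (h1 : j * (κ + 1) + 1 ≤ L) (h2 : L ≤ (j + 1) * (κ + 1)) (hL : E + X + 1 = L) (hE : 0 ≤ E)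
    (hX : 0 ≤ X) (hA : 0 ≤ A) (hC : 1 ≤ C) (hAC : A + C = n * L) (hε : κ * j + 1 ≤ 2 * ε)
    (hG : L * (C * (ε + X) + A * ε) ≤ A * C + E * X * (A + C) + E * A ∨
      L * (C * (ε + X) + A * ε) ≤ A * C + E * X * (A + C) + X * C) : False := by
  obtain ⟨y, hy⟩ : ∃ y, y = L - 1 := ⟨_, rfl⟩
  have hL1 : L = y + 1 := by linarith
  have hEy : E = y - X := by linarith
  have hCe : C = n * L - A := by linarith
  have hy0 : 1 ≤ y := by nlinarith
  have hLp : 0 < L := by linarith
  have hnL : 0 < n * L := by positivity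
  have hK : 4 * (n * L) * (ε * (n * L) * L) ≤
      4 * (n * L) * (A * C) + (n * L * L - y * C) ^ 2 := by
    have e0 : n * L * L - y * C = y * A + n * L := by rw [hCe, hL1]; ring
    rw [e0]
    rcases hG with hG | hG
    · have h3 : ε * (n * L) * L ≤ A * C + (X + 1) * (y * A - X * (n * L)) := by
        rw [← hAC]
        rw [← hL] at hG ⊢
        rw [hEy] at hG ⊢
        nlinarith
      have h4 := mul_le_mul_of_nonneg_left h3 (by positivity : 0 ≤ 4 * (n * L))
      nlinarith [sq_nonneg (y * A - n * L * (2 * X + 1))]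
    · have h3 : ε * (n * L) * L ≤ A * C + X * (y * A - X * (n * L)) := by
        rw [← hAC]
        rw [← hL] at hG ⊢
        rw [hEy] at hG ⊢
        nlinarith
      have h4 := mul_le_mul_of_nonneg_left h3 (by positivity : 0 ≤ 4 * (n * L))
      have h5 : 0 ≤ y * A * (n * L) := by positivity
      nlinarith [sq_nonneg (y * A - 2 * X * (n * L)), sq_nonneg (n * L)]
  have hW : 2 * n ^ 2 * L ^ 3 * (κ * j + 1) ≤ 4 * (n * L) * (ε * (n * L) * L) := by
    have h3 := mul_le_mul_of_nonneg_left hε (by positivity : 0 ≤ 2 * n ^ 2 * L ^ 3)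
    nlinarith
  have hW0 : n ^ 2 * L ^ 3 * (2 * κ * j + 2 - L) + 2 * n * C * L ^ 2 * (y - 2 * n) +
      C ^ 2 * (4 * n * L - y ^ 2) ≤ 0 := by
    have hA' : A = n * L - C := by linarith
    rw [hA'] at hK
    nlinarith
  have hκ : 1 ≤ κ := by linarith
  have h3 : 0 ≤ 2 * κ * j + 2 - L := by nlinarith [mul_nonneg (sub_nonneg.2 hκ) (sub_nonneg.2 hj)]
  have hP1 : 0 ≤ n ^ 2 * L ^ 3 := by positivity
  rcases le_or_gt (2 * n) y with h4 | h4
  · rcases le_or_gt (y ^ 2) (4 * n * L) with h5 | h5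
    · have h6 : 0 ≤ n ^ 2 * L ^ 3 * (2 * κ * j + 2 - L) := mul_nonneg hP1 h3
      rcases eq_or_lt_of_le h4 with h7 | h7
      · have h8 : 0 < 4 * n * L - y ^ 2 := by rw [hL1, ← h7]; nlinarith
        have h9 : 0 < C ^ 2 * (4 * n * L - y ^ 2) := by positivity
        have h10 : 2 * n * C * L ^ 2 * (y - 2 * n) = 0 := by rw [h7]; ring
        linarith
      · have h8 : 0 < 2 * n * C * L ^ 2 * (y - 2 * n) := by
          have : 0 < y - 2 * n := by linarith
          positivity
        have h9 : 0 ≤ C ^ 2 * (4 * n * L - y ^ 2) := mul_nonneg (by positivity) (by linarith)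
        linarith
    · have h6 : 0 ≤ n ^ 2 * L ^ 3 * (2 * κ * j + 2 - L) := mul_nonneg hP1 h3
      have h7 : C ^ 2 * (y ^ 2 - 4 * n * L) ≤ n * L * C * (y ^ 2 - 4 * n * L) := by
        apply mul_le_mul_of_nonneg_right _ (by linarith)
        have h8 : C * C ≤ (n * L) * C := mul_le_mul_of_nonneg_right (by linarith) (by linarith)
        nlinarith
      have h8 : 0 < n * C * L * (y * (y + 2)) := by positivity
      have e1 : n * C * L * (y * (y + 2)) = 2 * n * C * L ^ 2 * (y - 2 * n) -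
        n * L * C * (y ^ 2 - 4 * n * L) := by rw [hL1]; ring
      linarith
  · have hj1 : j = 1 := by
      have h5 : j * (n + 1) ≤ j * (κ + 1) := mul_le_mul_of_nonneg_left (by linarith) (by linarith)
      nlinarith
    rw [hj1] at hW0
    obtain ⟨d, hd⟩ : ∃ d, d = 2 * n - y := ⟨_, rfl⟩
    have hd1 : 1 ≤ d := by linarith
    have h5 : n ^ 2 * L ^ 3 * (d + 1) ≤ n ^ 2 * L ^ 3 * (2 * κ * 1 + 2 - L) :=
      mul_le_mul_of_nonneg_left (by linarith) hP1
    obtain ⟨M, hM⟩ : ∃ M, M = 4 * n * L - y ^ 2 := ⟨_, rfl⟩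
    have hM1 : 2 * d * L ≤ M := by
      rw [hM, hd, hL1]
      nlinarith
    have hM0 : 0 < M := by
      have : 0 < 2 * d * L := by positivity
      linarith
    rw [← hM] at hW0
    have h6 : n ^ 2 * L ^ 3 * (d + 1) - 2 * n * C * L ^ 2 * d + C ^ 2 * M ≤ 0 := by
      have : y - 2 * n = -d := by linarith
      rw [this] at hW0
      linarith
    have h7 := mul_le_mul_of_nonneg_left h6 hM0.le
    have h8 : M * (n ^ 2 * L ^ 3 * (d + 1) - 2 * n * C * L ^ 2 * d + C ^ 2 * M) =
      (M * C - n * L ^ 2 * d) ^ 2 + n ^ 2 * L ^ 3 * ((d + 1) * M - L * d ^ 2) := by ring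
    have h9 : 0 < (d + 1) * M - L * d ^ 2 := by
      have h10 : (d + 1) * (2 * d * L) ≤ (d + 1) * M := mul_le_mul_of_nonneg_left hM1 (by linarith)
      have h11 : 0 < L * (d ^ 2 + 2 * d) := by positivity
      nlinarith
    have h10 : 0 < n ^ 2 * L ^ 3 * ((d + 1) * M - L * d ^ 2) := by positivity
    rw [h8] at h7
    have := sq_nonneg (M * C - n * L ^ 2 * d)
    linarith

end DKWF
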