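import Pool.Agent.Lib.MP_f05b2f_co.F.KTwo

/-!
Two-dimensional sections, `k` slices of height `l`, order with `k` first.  `Ph l e S` is the
number of cells of the first `e` rows among the first `S` cells.  `Bad k l α β E ε` is the
criterion for the value of the order with `k` first to exceed the intersection by at least `ε`.
-/

namespace DKWF

open Finset

/-- cells of the first `e` rows among the first `S` cells, slices of height `l` -/
def Ph (l e S : ℕ) : ℕ := H [l] e S

theorem pos_one {l : ℕ} (hl : 0 < l) : Pos [l] := by simp [Pos, hl]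

theorem pos_two {k l : ℕ} (hk : 0 < k) (hl : 0 < l) : Pos [k, l] := by simp [Pos, hk, hl]

theorem Ph_mono {l e S S' : ℕ} (h : S ≤ S') : Ph l e S ≤ Ph l e S' := H_mono_right _ _ h

theorem Ph_zero (l e : ℕ) : Ph l e 0 = 0 := H_zero_right _ _

theorem Ph_le (l e S : ℕ) : Ph l e S ≤ S := H_le_right _ _ _

theorem Ph_eq {l e : ℕ} (hl : 0 < l) (he : e ≤ l) (q : ℕ) {s : ℕ} (hs : s ≤ l) :
    Ph l e (q * l + s) = q * e + min e s := by
  have h := H_period (pos_one hl) (a := e) (by simpa using he) q s
  simp only [List.prod_cons, List.prod_nil, mul_one] at h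
  rw [Ph, h, H_one e hs]

theorem Ph_lip (l e S t : ℕ) : Ph l e (S + t) ≤ Ph l e S + t := H_lip_right _ _ _ _

theorem Ph_add {l e : ℕ} (hl : 0 < l) (S : ℕ) {t : ℕ} (ht : t ≤ l) :
    Ph l e (S + t) ≤ Ph l e S + min t e := by
  have h := H_subadd (pos_one hl) e S t
  rw [H_one e ht] at h
  rw [Ph, Ph]
  omega

theorem Ph_sum {l e : ℕ} (hl : 0 < l) (S k : ℕ) {t : ℕ → ℕ} (ht : ∀ z, t z ≤ l) :
    Ph l e (S + ∑ z ∈ range k, t z) ≤ Ph l e S + ∑ z ∈ range k, min (t z) e := by
  induction k with
  | zero => simp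
  | succ k ih =>
    rw [sum_range_succ, sum_range_succ, ← add_assoc]
    have := Ph_add (e := e) hl (S + ∑ z ∈ range k, t z) (ht k)
    omega

theorem Ph_le_mul {l e n A : ℕ} (hl : 0 < l) (he : e ≤ l) (hA : A ≤ n * l) : Ph l e A ≤ n * e := by
  have h1 := Ph_mono (l := l) (e := e) hA
  have h2 := Ph_eq hl he n (Nat.zero_le l)
  rw [add_zero] at h2
  rw [h2] at h1
  simpa using h1

/-- the complement -/
theorem Ph_compl {l t n A : ℕ} (hl : 0 < l) (ht : t ≤ l) (hA : A ≤ n * l) :
    Ph l (l - t) (n * l - A) + A = n * (l - t) + Ph l t A := by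
  obtain ⟨q, s, hs, rfl⟩ : ∃ q s, s < l ∧ A = q * l + s :=
    ⟨A / l, A % l, Nat.mod_lt _ hl, (Nat.div_add_mod' A l).symm⟩
  have h1 := Ph_eq hl ht q hs.le
  rcases Nat.eq_zero_or_pos s with rfl | hs0
  · have hqn : q ≤ n := by
      by_contra hcon
      have : (n + 1) * l ≤ q * l := Nat.mul_le_mul_right _ (by omega)
      rw [Nat.succ_mul] at this
      omega
    obtain ⟨d, rfl⟩ := Nat.exists_eq_add_of_le hqn
    have e1 : (q + d) * l - (q * l + 0) = d * l + 0 := by rw [Nat.add_mul]; omega
    obtain ⟨u, rfl⟩ := Nat.exists_eq_add_of_le ht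
    have h2 := Ph_eq hl (Nat.sub_le (t + u) t) d (Nat.zero_le _)
    rw [e1, h1, h2]
    have e3 : t + u - t = u := by omega
    rw [e3]
    simp only [Nat.min_zero, add_zero]
    ring
  · have hqn : q + 1 ≤ n := by
      by_contra hcon
      have : n * l ≤ q * l := Nat.mul_le_mul_right _ (by omega)
      omega
    obtain ⟨d, rfl⟩ := Nat.exists_eq_add_of_le hqn
    obtain ⟨v, hv⟩ := Nat.exists_eq_add_of_le hs.le
    have e1 : (q + 1 + d) * l - (q * l + s) = d * l + v := by
      have : (q + 1 + d) * l = q * l + l + d * l := by ring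
      omega
    obtain ⟨u, hu⟩ := Nat.exists_eq_add_of_le ht
    have h2 := Ph_eq hl (Nat.sub_le l t) d (show v ≤ l by omega)
    rw [e1, h1, h2]
    have e3 : l - t = u := by omega
    rw [e3]
    have e4 : min u v + l = u + v + (l - max u v) := by omega
    have e5 : (q + 1 + d) * u + (q * t + min t s) = q * (t + u) + d * u + (u + min t s) := by ring
    rw [e5, ← hu]
    omega

/-- removing the last row -/
theorem Ph_bot {l e S t : ℕ} (hl : 0 < l) (he : e ≤ l) (ht : (l + 1) * t ≤ S) :
    Ph (l + 1) e S ≤ Ph l e (S - t) := by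
  obtain ⟨q, s, hs, rfl⟩ : ∃ q s, s < l + 1 ∧ S = q * (l + 1) + s :=
    ⟨S / (l + 1), S % (l + 1), Nat.mod_lt _ (by omega), (Nat.div_add_mod' S (l + 1)).symm⟩
  have htq : t ≤ q := by
    by_contra hcon
    have : (l + 1) * (q + 1) ≤ (l + 1) * t := Nat.mul_le_mul_left _ (by omega)
    have e : (l + 1) * (q + 1) = q * (l + 1) + (l + 1) := by ring
    omega
  rw [Ph_eq (by omega) (by omega) q hs.le]
  have h1 : q * l + s ≤ q * (l + 1) + s - t := by
    have : q * (l + 1) = q * l + q := by ring
    omega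
  refine le_trans ?_ (Ph_mono h1)
  rcases Nat.lt_or_ge l s with h2 | h2
  · have e1 : s = l + 1 := by omega
    omega
  · rw [Ph_eq hl he q h2]

/-- removing the first row -/
theorem Ph_top {l e S t : ℕ} (hl : 0 < l) (he : e ≤ l) (ht : S ≤ (l + 1) * t) (htS : t ≤ S) :
    Ph (l + 1) (e + 1) S ≤ t + Ph l e (S - t) := by
  obtain ⟨q, s, hs, rfl⟩ : ∃ q s, s < l + 1 ∧ S = q * (l + 1) + s :=
    ⟨S / (l + 1), S % (l + 1), Nat.mod_lt _ (by omega), (Nat.div_add_mod' S (l + 1)).symm⟩
  rw [Ph_eq (by omega) (by omega) q hs.le]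
  have hq : q * (l + 1) = q * l + q := by ring
  rcases Nat.eq_zero_or_pos s with rfl | hs0
  · have htq : q ≤ t := by
      by_contra hcon
      have : (l + 1) * (t + 1) ≤ (l + 1) * q := Nat.mul_le_mul_left _ (by omega)
      have e : (l + 1) * (t + 1) = (l + 1) * t + (l + 1) := by ring
      have e' : (l + 1) * q = q * (l + 1) := by ring
      omega
    have h1 := Ph_lip l e (q * (l + 1) + 0 - t) (t - q)
    have e1 : q * (l + 1) + 0 - t + (t - q) = q * l + 0 := by omega
    rw [e1, Ph_eq hl he q (Nat.zero_le l)] at h1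
    simp only [Nat.min_zero, add_zero] at h1 ⊢
    have : q * (e + 1) = q * e + q := by ring
    omega
  · have htq : q + 1 ≤ t := by
      by_contra hcon
      have : (l + 1) * t ≤ (l + 1) * q := Nat.mul_le_mul_left _ (by omega)
      have e' : (l + 1) * q = q * (l + 1) := by ring
      omega
    have h1 := Ph_lip l e (q * (l + 1) + s - t) (t - (q + 1))
    have e1 : q * (l + 1) + s - t + (t - (q + 1)) = q * l + (s - 1) := by omega
    rw [e1, Ph_eq hl he q (by omega)] at h1
    have : q * (e + 1) = q * e + q := by ring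
    omega

/-- the value for `k` first at full rows -/
theorem kf_row {k l e S : ℕ} (hk : 0 < k) (hl : 0 < l) (he : e ≤ l) (hS : S ≤ k * l) :
    H [k, l] S (k * e) = Ph l e S := by
  have hp : [k, l].prod = k * l := by simp
  rw [H_comm (pos_two hk hl) (by rw [hp]; exact hS) (by rw [hp]; exact Nat.mul_le_mul_left _ he)]
  have e1 : [k, l].reverse = [l] ++ [k] := by simp
  rw [e1, H_snoc hk]
  rfl

theorem kf_le_row {k l e S B : ℕ} (hk : 0 < k) (hl : 0 < l) (he : e ≤ l) (hS : S ≤ k * l)
    (hB : B ≤ k * e) : H [k, l] S B ≤ Ph l e S := by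
  rw [← kf_row hk hl he hS]
  exact H_mono_right _ _ hB

theorem kf_le_row' {k l e S B : ℕ} (hk : 0 < k) (hl : 0 < l) (he : e ≤ l) (hS : S ≤ k * l)
    (hB : k * e ≤ B) : H [k, l] S B + k * e ≤ Ph l e S + B := by
  rw [← kf_row hk hl he hS]
  have := H_lip_right [k, l] S (k * e) (B - k * e)
  have e1 : k * e + (B - k * e) = B := by omega
  rw [e1] at this
  omega

/-- the value for `k` first is at least the minimum of the two estimates -/
theorem kf_ge {k l E S B : ℕ} (hk : 0 < k) (hl : 0 < l) (hE : E < l) (hS : S ≤ k * l)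
    (hB : B ≤ k * l) {x : ℕ} (h1 : x ≤ Ph l (E + 1) S) (h2 : x + k * E ≤ B + Ph l E S) :
    x ≤ H [k, l] S B := by
  rcases Nat.lt_or_ge B (k * (E + 1)) with h3 | h3
  · rcases Nat.lt_or_ge B (k * E) with h4 | h4
    · have h5 := H_lip_right [k, l] S B (k * E - B)
      have e1 : B + (k * E - B) = k * E := by omega
      rw [e1, kf_row hk hl hE.le hS] at h5
      omega
    · obtain ⟨f, rfl⟩ := Nat.exists_eq_add_of_le h4
      have hf : f < k := by
        have : k * (E + 1) = k * E + k := by ring
        omega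
      rcases Nat.lt_or_ge S (k * l) with h6 | h6
      · obtain ⟨q, s, hs, rfl⟩ : ∃ q s, s < l ∧ S = q * l + s :=
          ⟨S / l, S % l, Nat.mod_lt _ hl, (Nat.div_add_mod' S l).symm⟩
        have hq : q < k := by
          by_contra hcon
          have : k * l ≤ q * l := Nat.mul_le_mul_right _ (by omega)
          omega
        have h7 := H_step (l := k) (ls := [l]) (pos_one hl) (q := q) (s := s) (c := E) (r := f)
          hq (by simpa using hs.le) hf
        simp only [List.prod_cons, List.prod_nil, mul_one] at h7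
        rw [h7]
        rw [Ph_eq hl (by omega) q hs.le] at h1
        rw [Ph_eq hl hE.le q hs.le] at h2
        have e2 : q * (E + 1) = q * E + q := by ring
        split_ifs with h8
        · rw [H_one s (by omega)]
          omega
        · rw [H_one s (by omega)]
          omega
      · have e3 : S = k * l := by omega
        have h7 := H_full (pos_two hk hl) (a := S) (by simp [e3]) (k * E + f)
        rw [h7]
        have h8 := Ph_eq hl hE.le k (Nat.zero_le l)
        rw [add_zero] at h8
        rw [e3, h8] at h2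
        simp only [Nat.min_zero, add_zero] at h2
        omega
  · refine h1.trans ?_
    rw [← kf_row hk hl (by omega : E + 1 ≤ l) hS]
    exact H_mono_right _ _ h3

end DKWF
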