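import Pool.Agent.Lib.MP_f05b2f_co.D.Col

/-!
The statement `FSL k ls` for every list `ls` whose sides are at least `k - 1`.
-/

namespace DKWF

open Finset

theorem sum_lam {ls : List ℕ} (h : Pos ls) (f : ℕ → ℕ) :
    ∑ ρ ∈ range ls.prod, f (lam ls ρ) = ∑ x ∈ range ls.prod, f x := by
  refine sum_bij' (fun t _ => lam ls t) (fun s _ => lam ls.reverse s) ?_ ?_ ?_ ?_ ?_
  · intro t _
    exact mem_range.2 (lam_lt h t)
  · intro s _
    have := lam_lt h.reverse s
    rw [prod_reverse] at this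
    exact mem_range.2 this
  · intro t ht
    exact lam_reverse h (mem_range.1 ht)
  · intro s hs
    exact lam_reverse' h (mem_range.1 hs)
  · intro t _
    rfl

/-- the sum form of the move `O1` for the last digit -/
theorem FS.of_sum {k : ℕ} (hk : 0 < k) {l : ℕ} (hl : 0 < l) {l1 : List ℕ} (h1 : Pos l1)
    (F : FSL k l1) {a b : ℕ → ℕ}
    (ha' : ∀ z, a z ≤ (l1 ++ [l]).prod) (hb' : ∀ z, b z ≤ (l1 ++ [l]).prod)
    (hS : ∑ ρ ∈ range l1.prod, H [k, l] (∑ z ∈ range k, min (a z - lam l1 ρ * l) l)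
        (∑ z ∈ range k, (b z + (l1.prod - 1 - ρ)) / l1.prod) ≤
      ∑ ρ ∈ range l1.prod, ∑ z ∈ range k, min (min (a z - lam l1 ρ * l) l)
        ((b z + (l1.prod - 1 - ρ)) / l1.prod)) :
    FS k (l1 ++ [l]) a b := by
  have hU := h1.prod_pos
  have F' : FSL k (l1 ++ []) := by rw [List.append_nil]; exact F
  have ha'' : ∀ z, a z ≤ (l1 ++ ([] ++ [l])).prod := ha'
  have hb'' : ∀ z, b z ≤ (l1 ++ ([] ++ [l])).prod := hb'
  have hd : ∀ z ρ, (b z + (l1.prod - 1 - ρ)) / l1.prod ≤ l := by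
    intro z ρ
    rw [Nat.div_le_iff_le_mul_add_pred hU]
    have := hb' z
    simp only [List.prod_append, List.prod_cons, List.prod_nil, mul_one] at this
    omega
  obtain ⟨m1, m2, hm, hF⟩ := S_ge hk hl h1 Pos.nil F' ha'' hb''
  refine ⟨m1, m2 ++ [l], ?_, hF.trans ?_⟩
  · rw [← List.append_assoc, hm, List.append_assoc]
    rfl
  · have e1 : S k l1 ([] ++ [l]) a b = ∑ ρ ∈ range l1.prod, H [k, l]
        (∑ z ∈ range k, min (a z - lam l1 ρ * l) l)
        (∑ z ∈ range k, (b z + (l1.prod - 1 - ρ)) / l1.prod) := by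
      simp only [S, secA, secB, List.nil_append, List.prod_cons, List.prod_nil, mul_one]
    have e2 : ∑ z ∈ range k, H (l1 ++ [l]) (a z) (b z) =
        ∑ ρ ∈ range l1.prod, ∑ z ∈ range k, min (min (a z - lam l1 ρ * l) l)
        ((b z + (l1.prod - 1 - ρ)) / l1.prod) := by
      simp only [H_append h1]
      rw [sum_comm]
      apply sum_congr rfl
      intro ρ _
      apply sum_congr rfl
      intro z _
      have := hd z ρ
      rw [H_one _ this]
      simp only [List.prod_cons, List.prod_nil, mul_one]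
      omega
    rw [e1, e2]
    exact hS

/-- either the move `O1` works, or some section is bad -/
theorem FS.or_bad {k : ℕ} (hk : 0 < k) {l : ℕ} (hl : 0 < l) {l1 : List ℕ} (h1 : Pos l1)
    (F : FSL k l1) {a b : ℕ → ℕ}
    (ha' : ∀ z, a z ≤ (l1 ++ [l]).prod) (hb' : ∀ z, b z ≤ (l1 ++ [l]).prod) :
    FS k (l1 ++ [l]) a b ∨ ∃ ρ < l1.prod,
      ∑ z ∈ range k, min (min (a z - lam l1 ρ * l) l) ((b z + (l1.prod - 1 - ρ)) / l1.prod) <
      H [k, l] (∑ z ∈ range k, min (a z - lam l1 ρ * l) l)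
        (∑ z ∈ range k, (b z + (l1.prod - 1 - ρ)) / l1.prod) := by
  by_cases hx : ∀ ρ < l1.prod,
      H [k, l] (∑ z ∈ range k, min (a z - lam l1 ρ * l) l)
        (∑ z ∈ range k, (b z + (l1.prod - 1 - ρ)) / l1.prod) ≤
      ∑ z ∈ range k, min (min (a z - lam l1 ρ * l) l) ((b z + (l1.prod - 1 - ρ)) / l1.prod)
  · left
    exact FS.of_sum hk hl h1 F ha' hb' (sum_le_sum (fun ρ hρ => hx ρ (mem_range.1 hρ)))
  · right
    push Not at hx
    exact hx

theorem row_le {l U : ℕ} (hU : 0 < U) {x ρ : ℕ} (h : x ≤ U * l) :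
    (x + (U - 1 - ρ)) / U ≤ l := by
  rw [Nat.div_le_iff_le_mul_add_pred hU, Nat.mul_comm]
  rw [Nat.mul_comm] at h
  omega

theorem clip_anti (l x : ℕ) {a : ℕ → ℕ} (ha : Antitone a) :
    Antitone (fun z => min (a z - x * l) l) := fun z z' hz => by
  show min (a z' - x * l) l ≤ min (a z - x * l) l
  have := ha hz
  omega

theorem row_anti (U ρ : ℕ) {b : ℕ → ℕ} (hb : Antitone b) :
    Antitone (fun z => (b z + (U - 1 - ρ)) / U) := fun z z' hz => by
  show (b z' + (U - 1 - ρ)) / U ≤ (b z + (U - 1 - ρ)) / U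
  exact Nat.div_le_div_right (by have := hb hz; omega)

/-- `k ≤ l` and `a` has a large drop: the sum form holds -/
theorem rows_sum {k l : ℕ} (hk : 0 < k) (hkl : k ≤ l) {l1 : List ℕ} (h1 : Pos l1)
    (F : FSL k l1) {a b : ℕ → ℕ} (ha : Antitone a) (hb : Antitone b)
    (ha' : ∀ z, a z ≤ (l1 ++ [l]).prod) (hb' : ∀ z, b z ≤ (l1 ++ [l]).prod)
    (hdrop : a (k - 1) + k * l < a 0) : FS k (l1 ++ [l]) a b := by
  have hl : 0 < l := by omega
  have hU := h1.prod_pos
  refine FS.of_sum hk hl h1 F ha' hb' ?_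
  have eN : (l1 ++ [l]).prod = l1.prod * l := by simp
  rw [eN] at ha' hb'
  obtain ⟨U, hUe⟩ : ∃ U, l1.prod = U := ⟨_, rfl⟩
  rw [hUe] at ha' hb' hU ⊢
  obtain ⟨xt, hxt⟩ : ∃ x, a 0 / l = x := ⟨_, rfl⟩
  obtain ⟨xb, hxb⟩ : ∃ x, a (k - 1) / l = x := ⟨_, rfl⟩
  have t1 : xt * l ≤ a 0 := by rw [← hxt]; exact Nat.div_mul_le_self _ _
  have t2 : a 0 < (xt + 1) * l := by
    rw [← hxt]
    exact (Nat.div_lt_iff_lt_mul hl).1 (Nat.lt_succ_self _)
  have b1 : xb * l ≤ a (k - 1) := by rw [← hxb]; exact Nat.div_mul_le_self _ _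
  have b2 : a (k - 1) < (xb + 1) * l := by
    rw [← hxb]
    exact (Nat.div_lt_iff_lt_mul hl).1 (Nat.lt_succ_self _)
  have hxx : xb + k ≤ xt := by
    rw [← hxt, Nat.le_div_iff_mul_le hl, Nat.add_mul]
    omega
  have hxtU : xt ≤ U := by
    have := ha' 0
    rw [← hxt]
    exact (Nat.div_le_div_right this).trans (by rw [Nat.mul_div_cancel _ hl])
  obtain ⟨j, hj⟩ : ∃ j, (b 0 - b (k - 1)) / U / k = j := ⟨_, rfl⟩
  have key : ∀ ρ ∈ range U,
      2 * H [k, l] (∑ z ∈ range k, min (a z - lam l1 ρ * l) l)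
        (∑ z ∈ range k, (b z + (U - 1 - ρ)) / U) +
        2 * j * (if xb < lam l1 ρ ∧ lam l1 ρ < xt then 1 else 0) ≤
      2 * ∑ z ∈ range k, min (min (a z - lam l1 ρ * l) l) ((b z + (U - 1 - ρ)) / U) +
        (k - 1) * j * ((if lam l1 ρ = xt then 1 else 0) + (if lam l1 ρ = xb then 1 else 0)) := by
    intro ρ hρ
    rw [mem_range] at hρ
    obtain ⟨x, hx⟩ : ∃ x, lam l1 ρ = x := ⟨_, rfl⟩
    rw [hx]
    have a1 := clip_anti l x ha
    have a2 := row_anti U ρ hb
    have a3 : ∀ z, min (a z - x * l) l ≤ l := fun z => min_le_right _ _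
    have a4 : ∀ z, (b z + (U - 1 - ρ)) / U ≤ l := fun z => row_le hU (hb' z)
    -- the drop of the rows
    have hd1 : (b 0 - b (k - 1)) / U + (b (k - 1) + (U - 1 - ρ)) / U ≤ (b 0 + (U - 1 - ρ)) / U := by
      have h2 := Nat.div_mul_le_self (b 0 - b (k - 1)) U
      have h3 := hb (Nat.zero_le (k - 1))
      rw [Nat.le_div_iff_mul_le hU, Nat.add_mul]
      have h4 := Nat.div_mul_le_self (b (k - 1) + (U - 1 - ρ)) U
      omega
    have hd2 : (b 0 + (U - 1 - ρ)) / U ≤
        (b 0 - b (k - 1)) / U + (b (k - 1) + (U - 1 - ρ)) / U + 1 := by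
      have h3 := hb (Nat.zero_le (k - 1))
      have e : b 0 + (U - 1 - ρ) = (b 0 - b (k - 1)) + (b (k - 1) + (U - 1 - ρ)) := by omega
      rw [e]
      have h5 := Nat.div_add_mod (b 0 - b (k - 1)) U
      have h6 := Nat.div_add_mod (b (k - 1) + (U - 1 - ρ)) U
      have h7 := Nat.mod_lt (b 0 - b (k - 1)) hU
      have h8 := Nat.mod_lt (b (k - 1) + (U - 1 - ρ)) hU
      rw [Nat.div_le_iff_le_mul_add_pred hU]
      have e9 : U * ((b 0 - b (k - 1)) / U + (b (k - 1) + (U - 1 - ρ)) / U + 1) =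
        U * ((b 0 - b (k - 1)) / U) + U * ((b (k - 1) + (U - 1 - ρ)) / U) + U := by ring
      omega
    have hj1 : j * k ≤ (b 0 - b (k - 1)) / U := by rw [← hj]; exact Nat.div_mul_le_self _ _
    have hj2 : ((b 0 + (U - 1 - ρ)) / U - (b (k - 1) + (U - 1 - ρ)) / U - 1) / k ≤ j := by
      rw [← hj]
      exact Nat.div_le_div_right (by omega)
    rcases lt_trichotomy x xb with c | c | c
    · -- all slices full
      have e1 : (x + 1) * l ≤ xb * l := Nat.mul_le_mul_right _ c
      have e2 : ∀ z ∈ range k, min (a z - x * l) l = l := by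
        intro z hz
        have h3 := ha (show z ≤ k - 1 by have := mem_range.1 hz; omega)
        rw [Nat.add_mul] at e1
        omega
      rw [sum_congr rfl e2, sum_const, card_range, smul_eq_mul,
        H_full (pos_two hk hl) (by simp)]
      have e3 : ∑ z ∈ range k, min (min (a z - x * l) l) ((b z + (U - 1 - ρ)) / U) =
          ∑ z ∈ range k, (b z + (U - 1 - ρ)) / U := by
        apply sum_congr rfl
        intro z hz
        rw [e2 z hz]
        exact min_eq_right (a4 z)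
      rw [e3, if_neg (by omega), mul_zero, add_zero]
      omega
    · have e1 : (xb + 1) * l ≤ xt * l := Nat.mul_le_mul_right _ (by omega)
      have e2 : min (a 0 - x * l) l = l := by
        rw [c]
        rw [Nat.add_mul] at e1
        omega
      have h3 := kf_D hk hkl a1 a2 a3 a4 (Or.inl e2) hj2
      rw [if_neg (by omega), if_pos c, mul_zero, add_zero]
      refine h3.trans ?_
      have : (k - 1) * j * 1 ≤ (k - 1) * j * ((if x = xt then 1 else 0) + 1) :=
        Nat.mul_le_mul_left _ (by omega)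
      omega
    rcases lt_trichotomy x xt with c' | c' | c'
    · have e1 : (xb + 1) * l ≤ x * l := Nat.mul_le_mul_right _ c
      have e1' : (x + 1) * l ≤ xt * l := Nat.mul_le_mul_right _ c'
      have e2 : min (a 0 - x * l) l = l := by
        rw [Nat.add_mul] at e1'
        omega
      have e3 : min (a (k - 1) - x * l) l = 0 := by omega
      have h3 := kf_C hk hkl a1 a2 a3 a4 e2 e3 (j := j) (by omega)
      rw [if_pos ⟨c, c'⟩]
      omega
    · have e1 : (xb + 1) * l ≤ xt * l := Nat.mul_le_mul_right _ (by omega)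
      have e3 : min (a (k - 1) - x * l) l = 0 := by
        rw [c']
        omega
      have h3 := kf_D hk hkl a1 a2 a3 a4 (Or.inr e3) hj2
      rw [if_neg (by omega), if_pos c', mul_zero, add_zero]
      refine h3.trans ?_
      have : (k - 1) * j * 1 ≤ (k - 1) * j * (1 + (if x = xb then 1 else 0)) :=
        Nat.mul_le_mul_left _ (by omega)
      omega
    · -- all slices empty
      have e1 : (xt + 1) * l ≤ x * l := Nat.mul_le_mul_right _ c'
      have e2 : ∀ z ∈ range k, min (a z - x * l) l = 0 := by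
        intro z _
        have h3 := ha (Nat.zero_le z)
        omega
      rw [sum_congr rfl e2, sum_const_zero, H_zero_left, if_neg (by omega)]
      omega
  have h2 := sum_le_sum key
  rw [sum_add_distrib, sum_add_distrib, ← mul_sum, ← mul_sum, ← mul_sum, ← mul_sum] at h2
  have hUe' := hUe
  have e1 : ∑ ρ ∈ range U, (if xb < lam l1 ρ ∧ lam l1 ρ < xt then 1 else 0) =
      ∑ x ∈ range U, (if xb < x ∧ x < xt then 1 else 0) := by
    rw [← hUe]
    exact sum_lam h1 (fun x => if xb < x ∧ x < xt then 1 else 0)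
  have e2 : ∑ ρ ∈ range U, ((if lam l1 ρ = xt then 1 else 0) + (if lam l1 ρ = xb then 1 else 0)) =
      ∑ x ∈ range U, ((if x = xt then 1 else 0) + (if x = xb then 1 else 0)) := by
    rw [← hUe]
    exact sum_lam h1 (fun x => (if x = xt then 1 else 0) + (if x = xb then 1 else 0))
  have e3 : k - 1 ≤ ∑ x ∈ range U, (if xb < x ∧ x < xt then 1 else 0) := by
    rw [← card_filter]
    have h3 : Ioo xb xt ⊆ (range U).filter (fun x => xb < x ∧ x < xt) := by
      intro x hx
      rw [mem_Ioo] at hx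
      rw [mem_filter, mem_range]
      exact ⟨by omega, hx⟩
    have h4 := card_le_card h3
    rw [Nat.card_Ioo] at h4
    omega
  have e4 : ∑ x ∈ range U, ((if x = xt then 1 else 0) + (if x = xb then 1 else 0)) ≤ 2 := by
    rw [sum_add_distrib, sum_ite_eq', sum_ite_eq']
    split_ifs <;> omega
  rw [e1, e2] at h2
  have e5 : 2 * j * (k - 1) ≤ 2 * j * ∑ x ∈ range U, (if xb < x ∧ x < xt then 1 else 0) :=
    Nat.mul_le_mul_left _ e3
  have e6 : (k - 1) * j * ∑ x ∈ range U, ((if x = xt then 1 else 0) + (if x = xb then 1 else 0)) ≤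
      (k - 1) * j * 2 := Nat.mul_le_mul_left _ e4
  have e7 : (k - 1) * j * 2 = 2 * j * (k - 1) := by ring
  omega

/-- a bad section has a drop of more than one row -/
theorem bad_drop {k l U ρ : ℕ} (hk : 0 < k) (hl : 0 < l) (hU : 0 < U) {a b : ℕ → ℕ} {x : ℕ}
    (ha : Antitone a) (hb : Antitone b) (hb' : ∀ z, b z ≤ U * l)
    (h : ∑ z ∈ range k, min (min (a z - x * l) l) ((b z + (U - 1 - ρ)) / U) <
      H [k, l] (∑ z ∈ range k, min (a z - x * l) l) (∑ z ∈ range k, (b z + (U - 1 - ρ)) / U)) :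
    b (k - 1) + U < b 0 := by
  have h1 := drop_pos hk hl (clip_anti l x ha) (row_anti U ρ hb) (fun z => min_le_right _ _)
    (fun z => row_le hU (hb' z)) h
  exact ceil_gap hU h1

/-- `k ≤ l`: a bad section has a drop of more than `k` rows -/
theorem bad_drop' {k l U ρ : ℕ} (hk : 0 < k) (hkl : k ≤ l) (hU : 0 < U) {a b : ℕ → ℕ} {x : ℕ}
    (ha : Antitone a) (hb : Antitone b) (hb' : ∀ z, b z ≤ U * l)
    (h : ∑ z ∈ range k, min (min (a z - x * l) l) ((b z + (U - 1 - ρ)) / U) <
      H [k, l] (∑ z ∈ range k, min (a z - x * l) l) (∑ z ∈ range k, (b z + (U - 1 - ρ)) / U)) :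
    b (k - 1) + k * U < b 0 := by
  have h1 : (b (k - 1) + (U - 1 - ρ)) / U + k + 1 ≤ (b 0 + (U - 1 - ρ)) / U :=
    kf_delta hk hkl (clip_anti l x ha) (row_anti U ρ hb) (fun z => min_le_right _ _)
    (fun z => row_le hU (hb' z)) h
  have h2 := Nat.div_add_mod (b (k - 1) + (U - 1 - ρ)) U
  have h3 := Nat.mod_lt (b (k - 1) + (U - 1 - ρ)) hU
  have h4 := Nat.div_mul_le_self (b 0 + (U - 1 - ρ)) U
  have h5 : ((b (k - 1) + (U - 1 - ρ)) / U + k + 1) * U ≤ (b 0 + (U - 1 - ρ)) / U * U :=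
    Nat.mul_le_mul_right _ h1
  have h6 : ((b (k - 1) + (U - 1 - ρ)) / U + k + 1) * U =
    U * ((b (k - 1) + (U - 1 - ρ)) / U) + k * U + U := by ring
  omega

/-- `k = l + 1`: in a bad section all the slices of `a` are in one open row -/
theorem bad_part {l U ρ : ℕ} (hl : 0 < l) (hU : 0 < U) {a b : ℕ → ℕ} {x : ℕ}
    (ha : Antitone a) (hb : Antitone b) (hb' : ∀ z, b z ≤ U * l)
    (h : ∑ z ∈ range (l + 1), min (min (a z - x * l) l) ((b z + (U - 1 - ρ)) / U) <
      H [l + 1, l] (∑ z ∈ range (l + 1), min (a z - x * l) l)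
        (∑ z ∈ range (l + 1), (b z + (U - 1 - ρ)) / U)) :
    a 0 < a l + l := by
  have h1 : min (a 0 - x * l) l < l ∧ 0 < min (a l - x * l) l :=
    kf_part hl (clip_anti l x ha) (row_anti U ρ hb) (fun z => min_le_right _ _)
    (fun z => row_le hU (hb' z)) h
  omega

/-- the step of the induction -/
theorem FS.small {k : ℕ} (hk : 0 < k) {ls : List ℕ} (h : Pos ls) {l1 l3 : List ℕ} {l l' : ℕ}
    (e1 : ls = l1 ++ [l]) (e3 : ls = l' :: l3) (F1 : FSL k l1) (F3 : FSL k l3)
    (hl : k ≤ l + 1) (hl' : k ≤ l' + 1) (hU : l' ≤ l1.prod) (hV : l ≤ l3.prod) {a b : ℕ → ℕ}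
    (ha : Antitone a) (hb : Antitone b) (ha' : ∀ z, a z ≤ ls.prod) (hb' : ∀ z, b z ≤ ls.prod) :
    FS k ls a b := by
  have p1 : Pos (l1 ++ [l]) := e1 ▸ h
  have p3 : Pos (l' :: l3) := e3 ▸ h
  rw [Pos.append_iff] at p1
  rw [Pos.cons_iff] at p3
  have hl0 : 0 < l := p1.2 l (by simp)
  have hl0' : 0 < l' := p3.1
  have eU : ls.prod = l1.prod * l := by rw [e1]; simp
  have eV : ls.prod = l3.reverse.prod * l' := by
    rw [e3, List.prod_cons, prod_reverse, Nat.mul_comm]
  have e4 : ls.reverse = l3.reverse ++ [l'] := by rw [e3]; simp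
  have hUp := p1.1.prod_pos
  have hVp : 0 < l3.reverse.prod := p3.2.reverse.prod_pos
  have haU : ∀ z, a z ≤ l1.prod * l := fun z => eU ▸ ha' z
  have hbU : ∀ z, b z ≤ l1.prod * l := fun z => eU ▸ hb' z
  have haV : ∀ z, a z ≤ l3.reverse.prod * l' := fun z => eV ▸ ha' z
  have hbV : ∀ z, b z ≤ l3.reverse.prod * l' := fun z => eV ▸ hb' z
  -- the columns
  have c1 : FS k ls a b ∨ ∃ ρ < l1.prod,
      ∑ z ∈ range k, min (min (a z - lam l1 ρ * l) l) ((b z + (l1.prod - 1 - ρ)) / l1.prod) <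
      H [k, l] (∑ z ∈ range k, min (a z - lam l1 ρ * l) l)
        (∑ z ∈ range k, (b z + (l1.prod - 1 - ρ)) / l1.prod) := by
    have := FS.or_bad hk hl0 p1.1 F1 (by rw [← e1]; exact ha') (by rw [← e1]; exact hb')
    rw [← e1] at this
    exact this
  rcases c1 with c1 | ⟨ρ, hρ, c1⟩
  · exact c1
  -- the rows
  have c3 : FS k ls a b ∨ ∃ ρ < l3.reverse.prod,
      ∑ z ∈ range k, min (min (b z - lam l3.reverse ρ * l') l')
        ((a z + (l3.reverse.prod - 1 - ρ)) / l3.reverse.prod) <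
      H [k, l'] (∑ z ∈ range k, min (b z - lam l3.reverse ρ * l') l')
        (∑ z ∈ range k, (a z + (l3.reverse.prod - 1 - ρ)) / l3.reverse.prod) := by
    have := FS.or_bad (a := b) (b := a) hk hl0' p3.2.reverse (F3.reverse hk p3.2)
      (by rw [← e4, prod_reverse]; exact hb') (by rw [← e4, prod_reverse]; exact ha')
    rcases this with h1 | h1
    · left
      rw [← e4] at h1
      exact h1.reverse hk h ha' hb'
    · exact Or.inr h1
  rcases c3 with c3 | ⟨ρ', hρ', c3⟩
  · exact c3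
  have d1 := bad_drop hk hl0 hUp ha hb hbU c1
  have d3 := bad_drop hk hl0' hVp hb ha haV c3
  rw [prod_reverse] at d3
  rcases Nat.lt_or_ge l' k with q' | q'
  · have ek : k = l' + 1 := by omega
    subst ek
    have := bad_part hl0' hVp hb ha haV c3
    rw [Nat.add_sub_cancel] at d1
    omega
  rcases Nat.lt_or_ge l k with q | q
  · have ek : k = l + 1 := by omega
    subst ek
    have := bad_part hl0 hUp ha hb hbU c1
    rw [Nat.add_sub_cancel] at d3
    omega
  have d4 := bad_drop' hk q' hVp hb ha haV c3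
  rw [prod_reverse] at d4
  rw [e1]
  refine rows_sum hk q p1.1 F1 ha hb (by rw [← e1]; exact ha') (by rw [← e1]; exact hb') ?_
  have : k * l ≤ k * l3.prod := Nat.mul_le_mul_left _ hV
  omega

/-- the first slice lemma for all lists with sides at least `k - 1` -/
theorem FSL_small {k : ℕ} (hk : 0 < k) : ∀ (r : ℕ) (ls : List ℕ), ls.length = r → Pos ls →
    (∀ l ∈ ls, k ≤ l + 1) → FSL k ls := by
  intro r
  induction r with
  | zero =>
    intro ls hls _ _
    rw [List.length_eq_zero_iff] at hls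
    subst hls
    exact FSL_nil k
  | succ r ih =>
    intro ls hls h hkl
    rcases Nat.eq_zero_or_pos r with rfl | hr
    · obtain ⟨l, rfl⟩ := List.length_eq_one_iff.1 hls
      exact FSL_one hk (h l (by simp))
    · obtain ⟨l', l3, e3⟩ : ∃ l' l3, ls = l' :: l3 := List.exists_cons_of_length_eq_add_one hls
      have hl3 : l3.length = r := by rw [e3] at hls; simpa using hls
      obtain ⟨l4, l, e4⟩ : ∃ l4 l, l3 = l4 ++ [l] := by
        rcases List.eq_nil_or_concat l3 with h0 | ⟨l4, l, h0⟩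
        · rw [h0] at hl3; simp at hl3; omega
        · exact ⟨l4, l, by rw [h0, List.concat_eq_append]⟩
      have e1 : ls = (l' :: l4) ++ [l] := by rw [e3, e4]; simp
      have hlen : (l' :: l4).length = r := by rw [e4] at hl3; simpa using hl3
      have p3 : Pos (l' :: l3) := e3 ▸ h
      have p1 : Pos ((l' :: l4) ++ [l]) := e1 ▸ h
      rw [Pos.cons_iff] at p3
      rw [Pos.append_iff, Pos.cons_iff] at p1
      have q1 : ∀ x ∈ (l' :: l4), k ≤ x + 1 := fun x hx =>
        hkl x (by rw [e1]; exact List.mem_append_left _ hx)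
      have q3 : ∀ x ∈ l3, k ≤ x + 1 := fun x hx =>
        hkl x (by rw [e3]; exact List.mem_cons_of_mem _ hx)
      have hU : l' ≤ (l' :: l4).prod := by
        rw [List.prod_cons]
        exact Nat.le_mul_of_pos_right _ p1.1.2.prod_pos
      have hV : l ≤ l3.prod := by
        rw [e4, List.prod_append]
        simp only [List.prod_cons, List.prod_nil, mul_one]
        exact Nat.le_mul_of_pos_left _ p1.1.2.prod_pos
      intro a b ha hb ha' hb'
      exact FS.small hk h e1 e3 (ih _ hlen (Pos.cons_iff.2 p1.1) q1) (ih _ hl3 p3.2 q3)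
        (hkl l (by rw [e1]; simp)) (hkl l' (by rw [e3]; simp)) hU hV ha hb ha' hb'

end DKWF
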